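import Pool.Agent.TVX.Q2

/-!
# [TVX-A1] the orthogonal representation

`ψ v := fun i => f i v`. For every `α : MulAut F` (`F = FreeGroup β`) and `i` the functions
`w ↦ f (α • i) (α w)` (it is `HQM K`: `hqm_comp` for `α.toMonoidHom`) and `f i` have the same
absolute value on `K`, so by `sign` there is `ε α i ∈ {1, -1}` with
`f (α • i) (α w) = ε α i * f i w` for all `w ∈ K`. Define the linear map
`L α : (I → ℝ) → (I → ℝ)`, `(L α v) (α • i) = ε α i * v i`, i.e.
`(L α v) i' = ε α (α⁻¹ • i') * v (α⁻¹ • i')`; it is bijective, preserves the dot product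
(`ε² = 1`, reindex the sum by `i ↦ α • i`: `MulAction.toPerm`), and `L α (ψ w) = ψ (α w)` for
`w ∈ K`. Let `M := FreeGroup.lift (fun l => L (MulAut.conj (FreeGroup.of l)))` (as linear
equivalences). Induction on `w` (`FreeGroup.induction_on`, for the inverse of a generator use that
`M (of l)` is bijective: `M (of l) (ψ ((of l)⁻¹ v (of l))) = ψ v`): `M w (ψ v) = ψ (w v w⁻¹)`.
-/

namespace Pool.Agent.TVX

/-- One automorphism: a linear equivalence preserving the dot product. -/
theorem exists_equiv {β I : Type*} [Fintype I] (K : Subgroup (FreeGroup β))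
    [MulAction (MulAut (FreeGroup β)) I] (f : I → FreeGroup β → ℝ) (hf : ∀ i, HQM K (f i))
    (hK : ∀ (α : MulAut (FreeGroup β)), ∀ w ∈ K, α w ∈ K)
    (hα : ∀ (α : MulAut (FreeGroup β)) (i : I), ∀ w ∈ K, |f (α • i) (α w)| = |f i w|)
    (α : MulAut (FreeGroup β)) :
    ∃ L : (I → ℝ) ≃ₗ[ℝ] (I → ℝ),
      (∀ v v', (∑ i, L v i * L v' i) = ∑ i, v i * v' i) ∧
        ∀ v ∈ K, L (fun i => f i v) = fun i => f i (α v) := by
  have hε : ∀ i : I, ∃ e : ℝ, e * e = 1 ∧ ∀ w ∈ K, f (α • i) (α w) = e * f i w := by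
    intro i
    have h1 : HQM K (fun w => f (α • i) (α w)) :=
      hqm_comp (hf (α • i)) (MulEquiv.toMonoidHom α) K (fun w hw => hK α w hw)
    rcases sign (hf i) h1 (fun a ha => hα α i a ha) with h | h
    · exact ⟨1, by norm_num, fun w hw => by rw [one_mul]; exact h w hw⟩
    · exact ⟨-1, by norm_num, fun w hw => by rw [neg_one_mul]; exact h w hw⟩
  choose e he1 he2 using hε
  refine ⟨{ toFun := fun v i => e (α⁻¹ • i) * v (α⁻¹ • i)
            map_add' := ?_
            map_smul' := ?_
            invFun := fun v i => e i * v (α • i)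
            left_inv := ?_
            right_inv := ?_ }, ?_, ?_⟩
  · intro v v'
    funext i
    simp only [Pi.add_apply]
    ring
  · intro c v
    funext i
    simp only [Pi.smul_apply, smul_eq_mul, RingHom.id_apply]
    ring
  · intro v
    funext i
    simp only [inv_smul_smul]
    rw [← mul_assoc, he1, one_mul]
  · intro v
    funext i
    simp only [smul_inv_smul]
    rw [← mul_assoc, he1, one_mul]
  · intro v v'
    change (∑ i, (e (α⁻¹ • i) * v (α⁻¹ • i)) * (e (α⁻¹ • i) * v' (α⁻¹ • i))) = _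
    rw [← Equiv.sum_comp (MulAction.toPerm α⁻¹ : Equiv.Perm I) (fun i => v i * v' i)]
    refine Finset.sum_congr rfl (fun i _ => ?_)
    simp only [MulAction.toPerm_apply]
    have := he1 (α⁻¹ • i)
    calc (e (α⁻¹ • i) * v (α⁻¹ • i)) * (e (α⁻¹ • i) * v' (α⁻¹ • i))
        = (e (α⁻¹ • i) * e (α⁻¹ • i)) * (v (α⁻¹ • i) * v' (α⁻¹ • i)) := by ring
      _ = v (α⁻¹ • i) * v' (α⁻¹ • i) := by rw [this, one_mul]
  · intro v hv
    funext i
    change e (α⁻¹ • i) * f (α⁻¹ • i) v = f i (α v)
    rw [← he2 (α⁻¹ • i) v hv, smul_inv_smul]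

theorem exists_rep {β I : Type*} [Fintype I] (K : Subgroup (FreeGroup β))
    [MulAction (MulAut (FreeGroup β)) I] (f : I → FreeGroup β → ℝ) (hf : ∀ i, HQM K (f i))
    (hK : ∀ (α : MulAut (FreeGroup β)), ∀ w ∈ K, α w ∈ K)
    (hα : ∀ (α : MulAut (FreeGroup β)) (i : I), ∀ w ∈ K, |f (α • i) (α w)| = |f i w|) :
    ∃ M : FreeGroup β →* ((I → ℝ) ≃ₗ[ℝ] (I → ℝ)),
      (∀ w v v', (∑ i, M w v i * M w v' i) = ∑ i, v i * v' i) ∧
        ∀ w, ∀ v ∈ K, M w (fun i => f i v) = fun i => f i (w * v * w⁻¹) := by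
  choose L hL1 hL2 using exists_equiv K f hf hK hα
  have hKc : ∀ w : FreeGroup β, ∀ v ∈ K, w * v * w⁻¹ ∈ K := by
    intro w v hv
    have := hK (MulAut.conj w) v hv
    simpa [MulAut.conj_apply] using this
  refine ⟨FreeGroup.lift (fun l => L (MulAut.conj (FreeGroup.of l))), ?_, ?_⟩
  · intro w
    induction w using FreeGroup.induction_on with
    | C1 => intro v v'; simp
    | of l => intro v v'; rw [FreeGroup.lift_apply_of]; exact hL1 _ v v'
    | inv_of l _ =>
      intro v v'
      rw [map_inv, FreeGroup.lift_apply_of]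
      have := hL1 (MulAut.conj (FreeGroup.of l)) ((L (MulAut.conj (FreeGroup.of l)))⁻¹ v)
        ((L (MulAut.conj (FreeGroup.of l)))⁻¹ v')
      have e1 : ∀ x, L (MulAut.conj (FreeGroup.of l)) ((L (MulAut.conj (FreeGroup.of l)))⁻¹ x) = x :=
        fun x => (L (MulAut.conj (FreeGroup.of l))).apply_symm_apply x
      rw [e1, e1] at this
      exact this.symm
    | mul a b ha hb =>
      intro v v'
      rw [map_mul]
      simp only [LinearEquiv.mul_apply]
      rw [ha, hb]
  · intro w
    induction w using FreeGroup.induction_on with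
    | C1 => intro v _; simp
    | of l =>
      intro v hv
      rw [FreeGroup.lift_apply_of, hL2 _ v hv]
      simp [MulAut.conj_apply]
    | inv_of l _ =>
      intro v hv
      rw [map_inv, FreeGroup.lift_apply_of]
      have h1 := hL2 (MulAut.conj (FreeGroup.of l)) ((FreeGroup.of l)⁻¹ * v * (FreeGroup.of l)⁻¹⁻¹)
        (hKc _ v hv)
      have h2 : (MulAut.conj (FreeGroup.of l)) ((FreeGroup.of l)⁻¹ * v * (FreeGroup.of l)⁻¹⁻¹) = v := by
        rw [MulAut.conj_apply]; group
      rw [h2] at h1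
      rw [← h1]
      exact (L (MulAut.conj (FreeGroup.of l))).symm_apply_apply _
    | mul a b ha hb =>
      intro v hv
      rw [map_mul]
      simp only [LinearEquiv.mul_apply]
      rw [hb v hv, ha _ (hKc b v hv)]
      funext i
      congr 1
      group

end Pool.Agent.TVX
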