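import Pool.Agent.TVX.Defs

/-!
# [TVX-A2] cocycles of free groups; a cocycle vanishing on a finite index subgroup is a coboundary

* `exists_cocycle`: for instance the homomorphism from `FreeGroup β` to the group of affine
  equivalences of `E` (or `Equiv.Perm E`) lifting `l ↦ (x ↦ M (of l) x + a l)`, `D w :=` image of
  `0`; one shows by induction that the image of `w` is `x ↦ M w x + D w`. (Or a semidirect product,
  or an explicit recursion.)
* `exists_coboundary`: `D (w v) = D w + M w (D v) = D w` for `v ∈ K`, so `D` factors through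
  `Q := F ⧸ K` (left cosets `w K`), a finite set. Let `m = Nat.card Q > 0`, `S = ∑ q : Q, D q`.
  For every `w`: `M w S = ∑ q, M w (D q) = ∑ q, (D (w q) - D w) = S - m • D w`
  (left multiplication by `w` permutes `Q`). With `b := - (1 / m) • S`: `M w b - b = D w`.
-/

namespace Pool.Agent.TVX

theorem exists_cocycle {β E : Type*} [AddCommGroup E] [Module ℝ E]
    (M : FreeGroup β →* (E ≃ₗ[ℝ] E)) (a : β → E) :
    ∃ D : FreeGroup β → E, (∀ l, D (FreeGroup.of l) = a l) ∧
      ∀ w w', D (w * w') = D w + M w (D w') := by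
  let Φ : FreeGroup β →* Equiv.Perm E :=
    FreeGroup.lift fun l => (M (FreeGroup.of l)).toEquiv.trans (Equiv.addRight (a l))
  have hof : ∀ (l : β) (x : E), Φ (FreeGroup.of l) x = M (FreeGroup.of l) x + a l := by
    intro l x
    simp [Φ]
  have key : ∀ (w : FreeGroup β) (x : E), Φ w x = M w x + Φ w 0 := by
    intro w
    induction w using FreeGroup.induction_on with
    | C1 => intro x; simp
    | of l =>
      intro x
      change Φ (FreeGroup.of l) x = M (FreeGroup.of l) x + Φ (FreeGroup.of l) 0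
      rw [hof, hof, map_zero, zero_add]
    | inv_of l ih =>
      intro x
      change Φ (FreeGroup.of l)⁻¹ x = M (FreeGroup.of l)⁻¹ x + Φ (FreeGroup.of l)⁻¹ 0
      have ih' : ∀ x, Φ (FreeGroup.of l) x = M (FreeGroup.of l) x + Φ (FreeGroup.of l) 0 := ih
      have inv : ∀ x, Φ (FreeGroup.of l)⁻¹ x =
          M (FreeGroup.of l)⁻¹ (x - Φ (FreeGroup.of l) 0) := by
        intro x
        have h1 := ih' (Φ (FreeGroup.of l)⁻¹ x)
        have h2 : Φ (FreeGroup.of l) (Φ (FreeGroup.of l)⁻¹ x) = x := by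
          rw [← Equiv.Perm.mul_apply, ← map_mul, mul_inv_cancel, map_one]
          rfl
        rw [h2] at h1
        have h3 : M (FreeGroup.of l)⁻¹ (M (FreeGroup.of l) (Φ (FreeGroup.of l)⁻¹ x)) =
            Φ (FreeGroup.of l)⁻¹ x := by
          rw [← LinearEquiv.mul_apply, ← map_mul, inv_mul_cancel, map_one]
          rfl
        rw [← h3]
        congr 1
        exact eq_sub_of_add_eq h1.symm
      have h4 : M (FreeGroup.of l)⁻¹ (0 : E) = 0 := LinearEquiv.map_zero _
      have h5 : ∀ y z : E, M (FreeGroup.of l)⁻¹ (y - z) =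
          M (FreeGroup.of l)⁻¹ y - M (FreeGroup.of l)⁻¹ z := fun y z => map_sub _ y z
      rw [inv x, inv 0, h5, h5, h4]
      abel
    | mul w w' ih ih' =>
      intro x
      have h : ∀ y, Φ (w * w') y = Φ w (Φ w' y) := fun y => by rw [map_mul]; rfl
      have h' : M (w * w') x = M w (M w' x) := by rw [map_mul]; rfl
      rw [h x, h 0, ih (Φ w' x), ih' x, ih (Φ w' 0), h', map_add]
      abel
  refine ⟨fun w => Φ w 0, fun l => ?_, fun w w' => ?_⟩
  · simp only
    rw [hof, map_zero, zero_add]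
  · simp only
    have h : Φ (w * w') 0 = Φ w (Φ w' 0) := by rw [map_mul]; rfl
    rw [h, key w (Φ w' 0), add_comm]

theorem exists_coboundary {F E : Type*} [Group F] [AddCommGroup E] [Module ℝ E]
    (K : Subgroup F) (hK : K.FiniteIndex) (M : F →* (E ≃ₗ[ℝ] E)) (D : F → E)
    (hD : ∀ w w', D (w * w') = D w + M w (D w')) (h0 : ∀ v ∈ K, D v = 0) :
    ∃ b : E, ∀ w, M w b - b = D w := by
  classical
  have _ := hK
  let _ : Fintype (F ⧸ K) := Subgroup.fintypeQuotientOfFiniteIndex
  let Dt : F ⧸ K → E := fun q => Quotient.liftOn' q D (fun x y hxy => by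
    rw [QuotientGroup.leftRel_apply] at hxy
    have h1 : D y = D (x * (x⁻¹ * y)) := by rw [mul_inv_cancel_left]
    rw [h1, hD, h0 _ hxy, map_zero, add_zero])
  have hDt : ∀ w : F, Dt (w : F ⧸ K) = D w := fun w => rfl
  have hDs : ∀ (w : F) (q : F ⧸ K), Dt (w • q) = D w + M w (Dt q) := by
    intro w q
    induction q using QuotientGroup.induction_on with
    | H z =>
      have h1 : w • (z : F ⧸ K) = ((w * z : F) : F ⧸ K) := rfl
      rw [h1, hDt, hDt, hD]
  set S : E := ∑ q : F ⧸ K, Dt q with hS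
  have hsum : ∀ w : F, S = (Fintype.card (F ⧸ K)) • D w + M w S := by
    intro w
    have h1 : ∑ q : F ⧸ K, Dt (w • q) = S :=
      Equiv.sum_comp (MulAction.toPerm w : Equiv.Perm (F ⧸ K)) Dt
    calc S = ∑ q : F ⧸ K, Dt (w • q) := h1.symm
      _ = ∑ q : F ⧸ K, (D w + M w (Dt q)) := Finset.sum_congr rfl fun q _ => hDs w q
      _ = (Fintype.card (F ⧸ K)) • D w + M w S := by
          rw [Finset.sum_add_distrib, Finset.sum_const, Finset.card_univ, hS, map_sum]
  have hm : (Fintype.card (F ⧸ K) : ℝ) ≠ 0 := by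
    have : 0 < Fintype.card (F ⧸ K) := Fintype.card_pos_iff.2 ⟨((1 : F) : F ⧸ K)⟩
    exact_mod_cast this.ne'
  refine ⟨-((Fintype.card (F ⧸ K) : ℝ)⁻¹ • S), fun w => ?_⟩
  have h2 := hsum w
  have h3 : S - M w S = (Fintype.card (F ⧸ K) : ℝ) • D w := by
    rw [Nat.cast_smul_eq_nsmul]
    exact sub_eq_of_eq_add h2
  rw [map_neg, map_smul]
  calc -((Fintype.card (F ⧸ K) : ℝ)⁻¹ • M w S) - -((Fintype.card (F ⧸ K) : ℝ)⁻¹ • S)
      = (Fintype.card (F ⧸ K) : ℝ)⁻¹ • (S - M w S) := by
        rw [smul_sub]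
        abel
    _ = D w := by
        rw [h3, inv_smul_smul₀ hm]

end Pool.Agent.TVX
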