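import Pool.Agent.TVX.Q2

/-!
# [TVX-A3] the derivative of `y_j ↦ y_j u^m`
-/

namespace Pool.Agent.TVX

private theorem a3_coord_le {I : Type*} [Fintype I] (A : (I → ℝ) ≃ₗ[ℝ] (I → ℝ))
    (hA : ∀ v v', (∑ i, A v i * A v' i) = ∑ i, v i * v' i) (v : I → ℝ) (C : ℝ) (hC : 0 ≤ C)
    (hv : ∀ i, |v i| ≤ C) (i : I) : |A v i| ≤ (Fintype.card I + 1) * C := by
  have h1 : (A v i) ^ 2 ≤ ∑ i, A v i * A v i := by
    have := Finset.single_le_sum (f := fun i => A v i * A v i)
      (fun k _ => mul_self_nonneg _) (Finset.mem_univ i)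
    simpa [pow_two] using this
  have h2 : (∑ i, v i * v i) ≤ ∑ _i : I, C ^ 2 := by
    apply Finset.sum_le_sum
    intro k _
    have := hv k
    have h3 : |v k| ^ 2 ≤ C ^ 2 := by
      apply pow_le_pow_left₀ (abs_nonneg _) this
    rw [sq_abs] at h3
    nlinarith [h3]
  have h4 : (∑ _i : I, C ^ 2) = Fintype.card I * C ^ 2 := by
    simp
  have h5 : (A v i) ^ 2 ≤ ((Fintype.card I + 1) * C) ^ 2 := by
    rw [hA] at h1
    have hc : (0 : ℝ) ≤ Fintype.card I := by positivity
    have : (Fintype.card I : ℝ) * C ^ 2 ≤ ((Fintype.card I + 1) * C) ^ 2 := by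
      have hC2 : 0 ≤ C ^ 2 := by positivity
      nlinarith [mul_nonneg hc hC2, mul_nonneg (mul_nonneg hc hc) hC2]
    linarith [h1, h2, h4.le, h4.ge]
  have h6 : 0 ≤ (Fintype.card I + 1) * C := by positivity
  exact abs_le_of_sq_le_sq h5 h6

theorem derivative_estimate {β I : Type*} [DecidableEq β] [Fintype I]
    (K : Subgroup (FreeGroup β)) (hKn : K.Normal) (f : I → FreeGroup β → ℝ)
    (hf : ∀ i, HQM K (f i)) (M : FreeGroup β →* ((I → ℝ) ≃ₗ[ℝ] (I → ℝ)))
    (hdot : ∀ w v v', (∑ i, M w v i * M w v' i) = ∑ i, v i * v' i)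
    (hM : ∀ w, ∀ v ∈ K, M w (fun i => f i v) = fun i => f i (w * v * w⁻¹))
    (j : β) (u : FreeGroup β) (hu : u ∈ K)
    (Z : ℕ → FreeGroup β →* FreeGroup β)
    (hZj : ∀ m, Z m (FreeGroup.of j) = FreeGroup.of j * u ^ m)
    (hZl : ∀ m l, l ≠ j → Z m (FreeGroup.of l) = FreeGroup.of l)
    (D : FreeGroup β → (I → ℝ))
    (hDj : D (FreeGroup.of j) = M (FreeGroup.of j) (fun i => f i u))
    (hDl : ∀ l, l ≠ j → D (FreeGroup.of l) = 0)
    (hD : ∀ w w', D (w * w') = D w + M w (D w')) (w : FreeGroup β) :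
    (∀ m, Z m w * w⁻¹ ∈ K) ∧
      ∃ C : ℝ, ∀ (m : ℕ) (i : I), |f i (Z m w * w⁻¹) - m * D w i| ≤ C := by
  classical
  have hD1 : D 1 = 0 := by
    have := hD 1 1
    simp only [mul_one, map_one, LinearEquiv.coe_one, id_eq] at this
    have h2 : D 1 + D 1 = D 1 := this.symm
    simpa using h2
  have hconj : ∀ w, ∀ v ∈ K, w * v * w⁻¹ ∈ K := fun w v hv => hKn.conj_mem v hv w
  -- a uniform defect
  obtain ⟨E, hE0, hE⟩ : ∃ E : ℝ, 0 ≤ E ∧ ∀ i, ∀ a ∈ K, ∀ b ∈ K,
      |f i (a * b) - f i a - f i b| ≤ E := by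
    choose E hE using fun i => (hf i).1
    refine ⟨∑ i, |E i|, Finset.sum_nonneg (fun i _ => abs_nonneg _), ?_⟩
    intro i a ha b hb
    calc |f i (a * b) - f i a - f i b| ≤ E i := hE i a ha b hb
      _ ≤ |E i| := le_abs_self _
      _ ≤ ∑ i, |E i| := Finset.single_le_sum (f := fun i => |E i|)
          (fun k _ => abs_nonneg _) (Finset.mem_univ i)
  induction w using FreeGroup.induction_on with
  | C1 =>
    refine ⟨fun m => by simpa using K.one_mem, 0, fun m i => ?_⟩
    have : f i 1 = 0 := (hf i).map_one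
    simp [hD1, this]
  | of l =>
    by_cases hl : l = j
    · subst hl
      have hmem : ∀ m : ℕ, Z m (FreeGroup.of l) * (FreeGroup.of l)⁻¹ ∈ K := by
        intro m
        rw [hZj]
        exact hconj _ _ (K.pow_mem hu m)
      refine ⟨hmem, 0, fun m i => ?_⟩
      rw [hZj, hDj]
      have h1 := congrFun (hM (FreeGroup.of l) (u ^ m) (K.pow_mem hu m)) i
      have h2 : (fun i => f i (u ^ m)) = (m : ℝ) • (fun i => f i u) := by
        funext i
        simp [(hf i).2 u hu m]
      rw [h2, map_smul] at h1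
      simp only [Pi.smul_apply, smul_eq_mul] at h1
      rw [← h1]
      simp
    · refine ⟨fun m => by rw [hZl m l hl]; simpa using K.one_mem, 0, fun m i => ?_⟩
      have : f i 1 = 0 := (hf i).map_one
      rw [hZl m l hl, hDl l hl]
      simp [this]
  | inv_of l ih =>
    by_cases hl : l = j
    · subst hl
      have hZinv : ∀ m, Z m (FreeGroup.of l)⁻¹ * ((FreeGroup.of l)⁻¹)⁻¹ = (u ^ m)⁻¹ := by
        intro m
        rw [map_inv, hZj]
        group
      have hDinv : D (FreeGroup.of l)⁻¹ = - fun i => f i u := by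
        have h1 := hD (FreeGroup.of l)⁻¹ (FreeGroup.of l)
        rw [inv_mul_cancel, hD1, hDj] at h1
        have h2 : M (FreeGroup.of l)⁻¹ (M (FreeGroup.of l) (fun i => f i u))
            = fun i => f i u := by
          have : M (FreeGroup.of l)⁻¹ * M (FreeGroup.of l) = 1 := by
            rw [← map_mul]; simp
          have h3 := congrArg (fun A : (I → ℝ) ≃ₗ[ℝ] (I → ℝ) => A (fun i => f i u)) this
          simpa using h3
        rw [h2] at h1
        exact eq_neg_of_add_eq_zero_left h1.symm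
      refine ⟨fun m => ?_, 0, fun m i => ?_⟩
      · rw [hZinv]; exact K.inv_mem (K.pow_mem hu m)
      · rw [hZinv, hDinv, (hf i).map_inv (K.pow_mem hu m), (hf i).2 u hu m]
        simp
    · have hZinv : ∀ m, Z m (FreeGroup.of l)⁻¹ * ((FreeGroup.of l)⁻¹)⁻¹ = 1 := by
        intro m
        rw [map_inv, hZl m l hl]
        group
      have hDinv : D (FreeGroup.of l)⁻¹ = 0 := by
        have h1 := hD (FreeGroup.of l)⁻¹ (FreeGroup.of l)
        rw [inv_mul_cancel, hD1, hDl l hl, map_zero, add_zero] at h1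
        exact h1.symm
      refine ⟨fun m => ?_, 0, fun m i => ?_⟩
      · rw [hZinv]; exact K.one_mem
      · rw [hZinv, hDinv, (hf i).map_one]
        simp
  | mul x y hx hy =>
    obtain ⟨hxK, Cx, hCx⟩ := hx
    obtain ⟨hyK, Cy, hCy⟩ := hy
    have hsplit : ∀ m, Z m (x * y) * (x * y)⁻¹
        = (Z m x * x⁻¹) * (x * (Z m y * y⁻¹) * x⁻¹) := by
      intro m
      rw [map_mul]
      group
    refine ⟨fun m => ?_, E + Cx + (Fintype.card I + 1) * |Cy|, fun m i => ?_⟩
    · rw [hsplit]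
      exact K.mul_mem (hxK m) (hconj _ _ (hyK m))
    · rw [hsplit, hD]
      set P := Z m x * x⁻¹ with hP
      set Q := Z m y * y⁻¹ with hQ
      have h1 := hE i P (hxK m) (x * Q * x⁻¹) (hconj _ _ (hyK m))
      have h2 := hCx m i
      have h3 := congrFun (hM x Q (hyK m)) i
      -- difference vector
      have h4 : |M x (fun i => f i Q - m * D y i) i| ≤ (Fintype.card I + 1) * |Cy| := by
        apply a3_coord_le (M x) (hdot x) _ _ (abs_nonneg _)
        intro i
        exact (hCy m i).trans (le_abs_self _)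
      have h5 : (fun i => f i Q - m * D y i) = (fun i => f i Q) - (m : ℝ) • D y := by
        funext i
        simp
      rw [h5, map_sub, map_smul] at h4
      simp only [Pi.sub_apply, Pi.smul_apply, smul_eq_mul] at h4
      rw [h3] at h4
      simp only [Pi.add_apply]
      have h6 : f i (P * (x * Q * x⁻¹)) - m * (D x i + M x (D y) i)
          = (f i (P * (x * Q * x⁻¹)) - f i P - f i (x * Q * x⁻¹))
            + (f i P - m * D x i) + (f i (x * Q * x⁻¹) - m * M x (D y) i) := by ring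
      rw [h6]
      calc _ ≤ |f i (P * (x * Q * x⁻¹)) - f i P - f i (x * Q * x⁻¹)|
            + |f i P - m * D x i| + |f i (x * Q * x⁻¹) - m * M x (D y) i| := abs_add_three _ _ _
        _ ≤ _ := by linarith

end Pool.Agent.TVX
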