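import Pool.Agent.TVX.A1
import Pool.Agent.TVX.A2
import Pool.Agent.TVX.A3

/-!
# [TVX-A4] `ψ(u) = (1 - y_j⁻¹) b`

`F = FreeGroup β`, `u ∈ K` a word in the generators different from `y_j`.
* `exists_shear_aut`: for `u ∈ closure {y_l | l ≠ j}` the homomorphism
  `Z m = lift (y_j ↦ y_j u^m, y_l ↦ y_l)` is bijective with inverse
  `lift (y_j ↦ y_j u^(-m), y_l ↦ y_l)` (both fix `u`), so it comes from `α m : MulAut F`.
* `coboundary_of_inv`: let `M` be given by A1 (hypotheses `hdot`, `hM`), and `D` the cocycle of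
  `exists_cocycle` with `D y_j = M y_j ψ(u)`, `D y_l = 0` (`l ≠ j`). For `v ∈ K`, `m : ℕ`:
  `|f_i(α_m v)| = |f_(α_m⁻¹ • i)(v)| ≤ B := ∑ i, |f_i v|` (`hα` with `α_m` and `α_m⁻¹ • i`), and
  `α_m v = (Z m v * v⁻¹) * v`, so `|f_i(Z m v * v⁻¹)| ≤ B + |f_i v| + defect`. With A3:
  `m |D(v)_i| ≤ const` for all `m`, so `D v = 0`. `exists_coboundary` gives `b` with
  `M w b - b = D w` for all `w`; take `w = y_j` and `w = y_l`.
-/

namespace Pool.Agent.TVX

theorem exists_shear_aut {β : Type*} [DecidableEq β] (j : β) (u : FreeGroup β)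
    (hu : u ∈ Subgroup.closure (FreeGroup.of '' {l : β | l ≠ j})) (m : ℕ) :
    ∃ α : MulAut (FreeGroup β), α (FreeGroup.of j) = FreeGroup.of j * u ^ m ∧
      ∀ l, l ≠ j → α (FreeGroup.of l) = FreeGroup.of l := by
  classical
  have key : ∀ g : FreeGroup β, u ∈ (FreeGroup.lift (fun l : β => if l = j then g else
      FreeGroup.of l)).eqLocus (MonoidHom.id (FreeGroup β)) := by
    intro g
    refine (Subgroup.closure_le _).2 ?_ hu
    rintro _ ⟨l, hl, rfl⟩
    have hl' : l ≠ j := hl
    show FreeGroup.lift (fun l : β => if l = j then g else FreeGroup.of l) (FreeGroup.of l) =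
      FreeGroup.of l
    rw [FreeGroup.lift_apply_of, if_neg hl']
  have keyu : ∀ g : FreeGroup β, FreeGroup.lift (fun l : β => if l = j then g else
      FreeGroup.of l) u = u := fun g => key g
  have comp : ∀ s t : FreeGroup β, s * t = 1 →
      (FreeGroup.lift (fun l : β => if l = j then FreeGroup.of j * s else FreeGroup.of l)) t = t →
      (FreeGroup.lift (fun l : β => if l = j then FreeGroup.of j * s else FreeGroup.of l)).comp
        (FreeGroup.lift (fun l : β => if l = j then FreeGroup.of j * t else FreeGroup.of l)) =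
        MonoidHom.id (FreeGroup β) := by
    intro s t hst ht
    refine FreeGroup.ext_hom _ _ fun l => ?_
    rw [MonoidHom.comp_apply, FreeGroup.lift_apply_of, MonoidHom.id_apply]
    by_cases hl : l = j
    · rw [if_pos hl, map_mul, ht, FreeGroup.lift_apply_of, if_pos rfl, mul_assoc, hst, mul_one, hl]
    · rw [if_neg hl, FreeGroup.lift_apply_of, if_neg hl]
  let α : MulAut (FreeGroup β) := MonoidHom.toMulEquiv
    (FreeGroup.lift (fun l : β => if l = j then FreeGroup.of j * u ^ m else FreeGroup.of l))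
    (FreeGroup.lift (fun l : β => if l = j then FreeGroup.of j * (u ^ m)⁻¹ else FreeGroup.of l))
    (comp _ _ (inv_mul_cancel _) (by rw [map_pow, keyu]))
    (comp _ _ (mul_inv_cancel _) (by rw [map_inv, map_pow, keyu]))
  have hα : ∀ w, α w =
      FreeGroup.lift (fun l : β => if l = j then FreeGroup.of j * u ^ m else FreeGroup.of l) w :=
    fun w => rfl
  refine ⟨α, ?_, fun l hl => ?_⟩
  · rw [hα, FreeGroup.lift_apply_of, if_pos rfl]
  · rw [hα, FreeGroup.lift_apply_of, if_neg hl]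

theorem coboundary_of_inv {β I : Type*} [DecidableEq β] [Fintype I]
    (K : Subgroup (FreeGroup β)) (hKn : K.Normal) (hKf : K.FiniteIndex)
    [MulAction (MulAut (FreeGroup β)) I] (f : I → FreeGroup β → ℝ) (hf : ∀ i, HQM K (f i))
    (hα : ∀ (α : MulAut (FreeGroup β)) (i : I), ∀ w ∈ K, |f (α • i) (α w)| = |f i w|)
    (M : FreeGroup β →* ((I → ℝ) ≃ₗ[ℝ] (I → ℝ)))
    (hdot : ∀ w v v', (∑ i, M w v i * M w v' i) = ∑ i, v i * v' i)
    (hM : ∀ w, ∀ v ∈ K, M w (fun i => f i v) = fun i => f i (w * v * w⁻¹))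
    (j : β) (u : FreeGroup β) (hu : u ∈ K)
    (huj : u ∈ Subgroup.closure (FreeGroup.of '' {l : β | l ≠ j})) :
    ∃ b : I → ℝ, M (FreeGroup.of j) b - b = M (FreeGroup.of j) (fun i => f i u) ∧
      ∀ l, l ≠ j → M (FreeGroup.of l) b = b := by
  classical
  obtain ⟨D, hDa, hD⟩ := exists_cocycle M
    (fun l : β => if l = j then M (FreeGroup.of j) (fun i => f i u) else 0)
  have hDj : D (FreeGroup.of j) = M (FreeGroup.of j) (fun i => f i u) := by
    rw [hDa, if_pos rfl]
  have hDl : ∀ l, l ≠ j → D (FreeGroup.of l) = 0 := by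
    intro l hl
    rw [hDa, if_neg hl]
  choose α hα1 hα2 using exists_shear_aut j u huj
  have h0 : ∀ v ∈ K, D v = 0 := by
    intro v hv
    obtain ⟨hmem, C, hC⟩ := derivative_estimate K hKn f hf M hdot hM j u hu
      (fun m => (α m).toMonoidHom) (fun m => hα1 m) (fun m l hl => hα2 m l hl) D hDj hDl hD v
    funext i
    obtain ⟨d, hd⟩ := (hf i).1
    have hbound : ∀ m : ℕ, (m : ℝ) * |D v i| ≤ C + 2 * (∑ i, |f i v|) + d := by
      intro m
      have h1 : (α m v) * v⁻¹ ∈ K := hmem m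
      have h2 : |f i (α m v * v⁻¹) - m * D v i| ≤ C := hC m i
      have h3 := hd _ h1 v hv
      rw [inv_mul_cancel_right] at h3
      have h4 : |f i (α m v)| ≤ ∑ i, |f i v| := by
        have h5 := hα (α m) ((α m)⁻¹ • i) v hv
        rw [smul_inv_smul] at h5
        rw [h5]
        exact Finset.single_le_sum (f := fun i => |f i v|) (fun i _ => abs_nonneg _)
          (Finset.mem_univ _)
      have h6 : |f i v| ≤ ∑ i, |f i v| :=
        Finset.single_le_sum (f := fun i => |f i v|) (fun i _ => abs_nonneg _)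
          (Finset.mem_univ i)
      have h7 : (m : ℝ) * |D v i| = |(m : ℝ) * D v i| := by
        rw [abs_mul, Nat.abs_cast]
      rw [h7]
      generalize (m : ℝ) * D v i = X at h2
      generalize f i (α m v * v⁻¹) = Y at h2 h3
      generalize f i (α m v) = Z at h3 h4
      rw [abs_le] at h2 h3 h4 h6 ⊢
      constructor <;> linarith [h2.1, h2.2, h3.1, h3.2, h4.1, h4.2, h6.1, h6.2]
    by_contra hne
    have hne' : D v i ≠ 0 := hne
    have hpos : 0 < |D v i| := abs_pos.2 hne'
    obtain ⟨m, hm⟩ := exists_nat_gt ((C + 2 * (∑ i, |f i v|) + d) / |D v i|)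
    rw [div_lt_iff₀ hpos] at hm
    exact absurd (hbound m) (not_le.2 hm)
  obtain ⟨b, hb⟩ := exists_coboundary K hKf M D hD h0
  refine ⟨b, ?_, fun l hl => ?_⟩
  · rw [hb, hDj]
  · rw [← sub_eq_zero, hb, hDl l hl]

end Pool.Agent.TVX
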