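import Pool.Agent.TVX.A4

/-!
# [TVX-A5] vanishing on corank two factors

* `orth`: with `⟨x, z⟩ = ∑ i, x i * z i`, `A`, `B` linear equivalences preserving it:
  `ψ = b - A⁻¹ b` and `ψ = c - B⁻¹ c`. `⟨ψ, b⟩ = ⟨c, b⟩ - ⟨B⁻¹ c, b⟩ = ⟨c, b⟩ - ⟨c, B b⟩ = 0`.
  `⟨ψ, b⟩ = ⟨b, b⟩ - ⟨A⁻¹ b, b⟩`, so `⟨A⁻¹ b, b⟩ = ⟨b, b⟩` and
  `⟨ψ, ψ⟩ = 2 ⟨b, b⟩ - 2 ⟨A⁻¹ b, b⟩ = 0`, so `ψ = 0`.
* `vanish`: `exists_rep` gives `M`; `coboundary_of_inv` for `j` and for `k` gives `b` and `c`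
  (`M y_k b = b` as `k ≠ j`); `orth` with `A = M y_j`, `B = M y_k`.
  `u ∈ closure {y_l | l ≠ j, l ≠ k}` is in both closures (`Subgroup.closure_mono`).
-/

namespace Pool.Agent.TVX

theorem orth {I : Type*} [Fintype I] (A B : (I → ℝ) ≃ₗ[ℝ] (I → ℝ))
    (hA : ∀ v v', (∑ i, A v i * A v' i) = ∑ i, v i * v' i)
    (hB : ∀ v v', (∑ i, B v i * B v' i) = ∑ i, v i * v' i)
    (ψ b c : I → ℝ) (hb : A b - b = A ψ) (hc : B c - c = B ψ) (hBb : B b = b) : ψ = 0 := by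
  obtain ⟨x, hx⟩ : ∃ x, A x = b := ⟨A.symm b, A.apply_symm_apply b⟩
  obtain ⟨y, hy⟩ : ∃ y, B y = c := ⟨B.symm c, B.apply_symm_apply c⟩
  have e1 : ψ = b - x := by
    apply A.injective
    rw [map_sub, hx, hb]
  have e2 : ψ = c - y := by
    apply B.injective
    rw [map_sub, hy, hc]
  have f1 := hA x x
  rw [hx] at f1
  have f2 := hB y b
  rw [hy, hBb] at f2
  have g1 : ∑ i, ψ i * b i = 0 := by
    have : ∀ i, ψ i * b i = c i * b i - y i * b i := by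
      intro i
      rw [e2, Pi.sub_apply]
      ring
    rw [Finset.sum_congr rfl fun i _ => this i, Finset.sum_sub_distrib, f2, sub_self]
  have g2 : ∑ i, ψ i * ψ i = 0 := by
    have : ∀ i, ψ i * ψ i = 2 * (ψ i * b i) - (b i * b i - x i * x i) := by
      intro i
      rw [e1, Pi.sub_apply]
      ring
    rw [Finset.sum_congr rfl fun i _ => this i, Finset.sum_sub_distrib, ← Finset.mul_sum, g1,
      Finset.sum_sub_distrib, f1]
    ring
  rw [Finset.sum_eq_zero_iff_of_nonneg fun i _ => mul_self_nonneg _] at g2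
  funext i
  exact mul_self_eq_zero.1 (g2 i (Finset.mem_univ i))

theorem vanish {β I : Type*} [DecidableEq β] [Fintype I]
    (K : Subgroup (FreeGroup β)) (hKn : K.Normal) (hKf : K.FiniteIndex)
    (hKc : ∀ (α : MulAut (FreeGroup β)), ∀ w ∈ K, α w ∈ K)
    [MulAction (MulAut (FreeGroup β)) I] (f : I → FreeGroup β → ℝ) (hf : ∀ i, HQM K (f i))
    (hα : ∀ (α : MulAut (FreeGroup β)) (i : I), ∀ w ∈ K, |f (α • i) (α w)| = |f i w|)
    (j k : β) (hjk : j ≠ k) (u : FreeGroup β) (hu : u ∈ K)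
    (hujk : u ∈ Subgroup.closure (FreeGroup.of '' {l : β | l ≠ j ∧ l ≠ k})) (i : I) :
    f i u = 0 := by
  obtain ⟨M, hdot, hM⟩ := exists_rep K f hf hKc hα
  have huj : u ∈ Subgroup.closure (FreeGroup.of '' {l : β | l ≠ j}) :=
    Subgroup.closure_mono (Set.image_mono fun l hl => hl.1) hujk
  have huk : u ∈ Subgroup.closure (FreeGroup.of '' {l : β | l ≠ k}) :=
    Subgroup.closure_mono (Set.image_mono fun l hl => hl.2) hujk
  obtain ⟨b, hb, hbl⟩ := coboundary_of_inv K hKn hKf f hf hα M hdot hM j u hu huj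
  obtain ⟨c, hc, -⟩ := coboundary_of_inv K hKn hKf f hf hα M hdot hM k u hu huk
  have h := orth (M (FreeGroup.of j)) (M (FreeGroup.of k)) (hdot _) (hdot _)
    (fun i => f i u) b c hb hc (hbl k hjk.symm)
  exact congrFun h i

end Pool.Agent.TVX
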