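import Mathlib

/-!
# [TVX] MP_396795_al: transvections are never loxodromic

Definitions used in the final statement and in the lemmas.
-/

namespace Pool.Agent.TVX

/-- Gromov's four point condition with constant `δ`. -/
def FourPoint (Y : Type*) [PseudoMetricSpace Y] (δ : ℝ) : Prop :=
  ∀ x y z t : Y,
    dist x z + dist y t ≤ max (dist x y + dist z t) (dist x t + dist y z) + δ

/-- A (pseudo)metric space is Gromov hyperbolic if the four point condition holds for some
constant. -/
def GromovHyperbolic (Y : Type*) [PseudoMetricSpace Y] : Prop :=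
  ∃ δ : ℝ, FourPoint Y δ

/-- The element `g` acts loxodromically at `y`: the orbit of `y` under the powers of `g` moves
away from `y` at least linearly. -/
def LoxodromicAt {G Y : Type*} [Group G] [PseudoMetricSpace Y] [MulAction G Y] (g : G) (y : Y) :
    Prop :=
  ∃ c : ℝ, 0 < c ∧ ∀ k : ℕ, c * k ≤ dist y (g ^ k • y)

/-- Displacement of `y` under `g ^ k`. -/
noncomputable def disp {G Y : Type*} [Group G] [PseudoMetricSpace Y] [MulAction G Y]
    (g : G) (y : Y) (k : ℕ) : ℝ :=
  dist y (g ^ k • y)

/-- Stable translation length: infimum of `dist y (g ^ k • y) / k` over `k ≥ 1`. -/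
noncomputable def stl {G Y : Type*} [Group G] [PseudoMetricSpace Y] [MulAction G Y]
    (g : G) (y : Y) : ℝ :=
  sInf ((fun k : ℕ => disp g y k / k) '' Set.Ici 1)

/-- `f` is a homogeneous quasimorphism on the subgroup `C` (values outside `C` are irrelevant). -/
def HQM {G : Type*} [Group G] (C : Subgroup G) (f : G → ℝ) : Prop :=
  (∃ D : ℝ, ∀ a ∈ C, ∀ b ∈ C, |f (a * b) - f a - f b| ≤ D) ∧
    ∀ a ∈ C, ∀ k : ℕ, f (a ^ k) = k * f a

end Pool.Agent.TVX
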