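import Pool.Agent.TVX.Defs

/-!
# [TVX] definitions of the final statement
-/

namespace Pool.Agent.TVX

universe u v

/-- `Aut(F_n)`. -/
abbrev AutF (n : ℕ) : Type := MulAut (FreeGroup (Fin n))

/-- The subgroup of inner automorphisms of `F_n`. -/
def InnF (n : ℕ) : Subgroup (AutF n) :=
  (MulAut.conj (G := FreeGroup (Fin n))).range

instance innF_normal (n : ℕ) : (InnF n).Normal := by
  refine ⟨?_⟩
  rintro _ ⟨w, rfl⟩ a
  refine ⟨a w, ?_⟩
  ext x
  simp [MulAut.conj_apply, MulAut.mul_apply]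

/-- `Out(F_n)`. -/
abbrev OutF (n : ℕ) : Type := AutF n ⧸ InnF n

/-- The projection `Aut(F_n) → Out(F_n)`. -/
def toOut (n : ℕ) : AutF n →* OutF n := QuotientGroup.mk' (InnF n)

/-- `x_i ↦ x_i u`, where `i ∉ J`, `|J| + 4 ≤ n` and `u` is a word in the `x_j`, `j ∈ J`; all other
generators are fixed. -/
def IsShearAt (n : ℕ) (i : Fin n) (J : Finset (Fin n)) (g : AutF n) : Prop :=
  ∃ u ∈ Subgroup.closure (FreeGroup.of '' (J : Set (Fin n))),
    g (FreeGroup.of i) = FreeGroup.of i * u ∧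
      ∀ l : Fin n, l ≠ i → g (FreeGroup.of l) = FreeGroup.of l

/-- `g` is conjugate in `Aut(F_n)` to a map `x_i ↦ x_i u` (all other generators fixed), where `u`
is a word in the `x_j`, `j ∈ J`, `i ∉ J` and `|J| + 4 ≤ n`. For `n ≥ 5` all the transvections
`x_i ↦ x_i x_j` (`i ≠ j`) are of this kind. -/
def IsShear (n : ℕ) (g : AutF n) : Prop :=
  ∃ (a : AutF n) (i : Fin n) (J : Finset (Fin n)), i ∉ J ∧ J.card + 4 ≤ n ∧
    IsShearAt n i J (a⁻¹ * g * a)

/-- `G` has a subgroup `G₀` of finite index which acts isometrically on finitely many Gromov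
hyperbolic spaces in such a way that every element of infinite order of `G₀` is loxodromic on
at least one of them. -/
def DetectedByHyperbolicSpaces (G : Type u) [Group G] : Prop :=
  ∃ (G₀ : Subgroup G) (m : ℕ) (Y : Fin m → Type v) (_ : ∀ k, PseudoMetricSpace (Y k))
    (_ : ∀ k, MulAction G₀ (Y k)),
    G₀.FiniteIndex ∧ (∀ k, IsIsometricSMul G₀ (Y k)) ∧ (∀ k, GromovHyperbolic (Y k)) ∧
      ∀ g : G₀, ¬ IsOfFinOrder g → ∃ (k : Fin m) (y : Y k), LoxodromicAt g y

/-- `G` has a torsion free subgroup of finite index. -/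
def VirtuallyTorsionFree (G : Type u) [Group G] : Prop :=
  ∃ G₁ : Subgroup G, G₁.FiniteIndex ∧ ∀ g ∈ G₁, IsOfFinOrder g → g = 1

end Pool.Agent.TVX
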