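import Pool.Agent.TVX.Defs

/-!
# [TVX-H1] displacement and stable length: basics

`a_k := disp g y k = dist y (g ^ k • y)`.
* `dist_pow_pow`: apply the isometry `g ^ a` (`dist_smul`, `pow_add`, `mul_smul`).
* `disp_add_le`: triangle inequality through `g ^ m • y` and `dist_pow_pow`.
* `disp_inv_pow`: `dist (g ^ N • y) (g⁻¹ ^ N • y) = disp g y (2 * N)` (apply `g ^ N`).
* `u k := disp g y k` is `Subadditive`; `stl g y` is by definition `Subadditive.lim`
  (`Subadditive.lim` is `sInf ((fun n : ℕ => u n / n) '' Ici 1)`), so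
  `tendsto_disp_div` is `Subadditive.tendsto_lim` and `mul_stl_le` is `Subadditive.lim_le_div`.
-/

namespace Pool.Agent.TVX

open Filter Topology

variable {G Y : Type*} [Group G] [PseudoMetricSpace Y] [MulAction G Y] [IsIsometricSMul G Y]

theorem disp_zero (g : G) (y : Y) : disp g y 0 = 0 := by
  simp [disp]

theorem disp_nonneg (g : G) (y : Y) (k : ℕ) : 0 ≤ disp g y k := dist_nonneg

theorem dist_pow_pow (g : G) (y : Y) (a b : ℕ) :
    dist (g ^ a • y) (g ^ (a + b) • y) = disp g y b := by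
  rw [pow_add, mul_smul, dist_smul]
  rfl

theorem disp_add_le (g : G) (y : Y) (m n : ℕ) :
    disp g y (m + n) ≤ disp g y m + disp g y n := by
  rw [← dist_pow_pow g y m n]
  exact dist_triangle _ _ _

theorem dist_inv_pow (g : G) (y : Y) (N : ℕ) : dist y (g⁻¹ ^ N • y) = disp g y N := by
  rw [← dist_smul (g ^ N) y (g⁻¹ ^ N • y), ← mul_smul, inv_pow, mul_inv_cancel, one_smul, dist_comm]
  rfl

theorem disp_inv_pow (g : G) (y : Y) (N : ℕ) :
    dist (g ^ N • y) (g⁻¹ ^ N • y) = disp g y (2 * N) := by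
  rw [← dist_smul (g ^ N) (g ^ N • y) (g⁻¹ ^ N • y), ← mul_smul, ← mul_smul, inv_pow,
    mul_inv_cancel, one_smul, dist_comm, ← pow_add, two_mul]
  rfl

theorem disp_pow (g : G) (y : Y) (s k : ℕ) : disp (g ^ s) y k = disp g y (s * k) := by
  unfold disp
  rw [pow_mul]

private theorem h1_sub (g : G) (y : Y) : Subadditive (disp g y) := fun m n => disp_add_le g y m n

private theorem h1_bdd (g : G) (y : Y) : BddBelow (Set.range fun n : ℕ => disp g y n / n) := by
  refine ⟨0, ?_⟩
  rintro _ ⟨n, rfl⟩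
  exact div_nonneg (disp_nonneg g y n) (Nat.cast_nonneg n)

private theorem h1_lim (g : G) (y : Y) : (h1_sub g y).lim = stl g y := by
  rw [Subadditive.lim]
  rfl

theorem tendsto_disp_div (g : G) (y : Y) :
    Tendsto (fun k : ℕ => disp g y k / k) atTop (𝓝 (stl g y)) := by
  rw [← h1_lim]
  exact (h1_sub g y).tendsto_lim (h1_bdd g y)

theorem mul_stl_le (g : G) (y : Y) (k : ℕ) : k * stl g y ≤ disp g y k := by
  rcases Nat.eq_zero_or_pos k with rfl | hk
  · simp [disp_zero]
  · have h := (h1_sub g y).lim_le_div (h1_bdd g y) hk.ne'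
    rw [h1_lim, le_div_iff₀ (by exact_mod_cast hk)] at h
    linarith

theorem stl_nonneg (g : G) (y : Y) : 0 ≤ stl g y := by
  refine Real.sInf_nonneg ?_
  rintro _ ⟨n, _, rfl⟩
  exact div_nonneg (disp_nonneg g y n) (Nat.cast_nonneg n)

/-- From `mul_stl_le`: `disp g y k ≥ k * stl g y → ∞`. -/
theorem tendsto_disp_atTop (g : G) (y : Y) (h : 0 < stl g y) :
    Tendsto (disp g y) atTop atTop := by
  refine tendsto_atTop_mono (fun k => mul_stl_le g y k) ?_
  exact tendsto_natCast_atTop_atTop.atTop_mul_const h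

end Pool.Agent.TVX
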