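import Pool.Agent.TVX.H1

/-!
# [TVX-H2] algebra of the stable length

All from `tendsto_disp_div` and uniqueness of limits.
* `stl_eq_stl`: `|disp g y k - disp g z k| ≤ 2 * dist y z` (two triangle inequalities and
  `dist_smul`); divide by `k`.
* `stl_conj`: `(b g b⁻¹) ^ k = b g ^ k b⁻¹`, so `disp (b g b⁻¹) y k = disp g (b⁻¹ • y) k`; then
  `stl_eq_stl`.
* `stl_pow`: `disp (g ^ s) y k = disp g y (s * k)` and subsequence; `s = 0` separately.
* `stl_mul_le`: `(g h) ^ k = g ^ k h ^ k`, so `disp (g h) y k ≤ disp g y k + disp h y k`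
  (`dist y (g^k h^k y) ≤ dist y (g^k y) + dist (g^k y) (g^k h^k y)`).
* `loxodromicAt_iff`: (→) `c ≤ disp g y k / k` for all `k ≥ 1`, limit; (←) `mul_stl_le`.
-/

namespace Pool.Agent.TVX

open Filter Topology

variable {G Y : Type*} [Group G] [PseudoMetricSpace Y] [MulAction G Y] [IsIsometricSMul G Y]

/-- displacements at two points -/
private theorem h2_abs (g : G) (y z : Y) (k : ℕ) : |disp g y k - disp g z k| ≤ 2 * dist y z := by
  have h1 : dist y (g ^ k • y) ≤ dist y z + dist z (g ^ k • z) + dist (g ^ k • z) (g ^ k • y) :=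
    dist_triangle4 _ _ _ _
  have h2 : dist z (g ^ k • z) ≤ dist z y + dist y (g ^ k • y) + dist (g ^ k • y) (g ^ k • z) :=
    dist_triangle4 _ _ _ _
  rw [dist_smul] at h1 h2
  rw [dist_comm z y] at h1 h2
  unfold disp
  rw [abs_le]
  constructor <;> linarith

theorem stl_eq_stl (g : G) (y z : Y) : stl g y = stl g z := by
  have h1 := (tendsto_disp_div g y).sub (tendsto_disp_div g z)
  have h2 : Tendsto (fun k : ℕ => disp g y k / k - disp g z k / k) atTop (𝓝 0) := by
    have h3 : Tendsto (fun k : ℕ => 2 * dist y z / (k : ℝ)) atTop (𝓝 0) :=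
      tendsto_const_div_atTop_nhds_zero_nat _
    refine squeeze_zero_norm (fun k => ?_) h3
    rw [Real.norm_eq_abs, ← sub_div, abs_div, Nat.abs_cast]
    exact div_le_div_of_nonneg_right (h2_abs g y z k) (Nat.cast_nonneg k)
  exact sub_eq_zero.1 (tendsto_nhds_unique h1 h2)

theorem stl_conj (b g : G) (y : Y) : stl (b * g * b⁻¹) y = stl g y := by
  have h : ∀ k : ℕ, disp (b * g * b⁻¹) y k = disp g (b⁻¹ • y) k := by
    intro k
    unfold disp
    rw [conj_pow, mul_smul, mul_smul, ← dist_smul b⁻¹ y, inv_smul_smul]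
  have h2 : stl (b * g * b⁻¹) y = stl g (b⁻¹ • y) := by
    unfold stl
    simp only [h]
  rw [h2]
  exact stl_eq_stl g _ _

theorem stl_pow (g : G) (y : Y) (s : ℕ) : stl (g ^ s) y = s * stl g y := by
  have h0 := tendsto_disp_div (g ^ s) y
  rcases Nat.eq_zero_or_pos s with rfl | hs
  · have h1 : Tendsto (fun k : ℕ => disp (g ^ 0) y k / k) atTop (𝓝 0) := by
      have h2 : (fun k : ℕ => disp (g ^ 0) y k / (k : ℝ)) = fun _ => (0 : ℝ) := by
        funext k
        rw [disp_pow, Nat.zero_mul, disp_zero, zero_div]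
      rw [h2]
      exact tendsto_const_nhds
    rw [tendsto_nhds_unique h0 h1, Nat.cast_zero, zero_mul]
  · have hs' : (s : ℝ) ≠ 0 := Nat.cast_ne_zero.2 hs.ne'
    have hk : Tendsto (fun k : ℕ => s * k) atTop atTop :=
      tendsto_id.const_mul_atTop' hs
    have h1 : Tendsto (fun k : ℕ => (s : ℝ) * (disp g y (s * k) / ((s * k : ℕ) : ℝ))) atTop
        (𝓝 (s * stl g y)) := ((tendsto_disp_div g y).comp hk).const_mul _
    have h2 : (fun k : ℕ => disp (g ^ s) y k / (k : ℝ)) =
        fun k : ℕ => (s : ℝ) * (disp g y (s * k) / ((s * k : ℕ) : ℝ)) := by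
      funext k
      rw [disp_pow, Nat.cast_mul, ← mul_div_assoc, mul_div_mul_left _ _ hs']
    rw [h2] at h0
    exact tendsto_nhds_unique h0 h1

theorem stl_mul_le (g h : G) (y : Y) (hgh : Commute g h) :
    stl (g * h) y ≤ stl g y + stl h y := by
  refine le_of_tendsto_of_tendsto' (tendsto_disp_div (g * h) y)
    ((tendsto_disp_div g y).add (tendsto_disp_div h y)) fun k => ?_
  rw [← add_div]
  refine div_le_div_of_nonneg_right ?_ (Nat.cast_nonneg k)
  unfold disp
  rw [hgh.mul_pow, mul_smul]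
  refine (dist_triangle y (g ^ k • y) _).trans ?_
  rw [dist_smul]

theorem loxodromicAt_iff (g : G) (y : Y) : LoxodromicAt g y ↔ 0 < stl g y := by
  constructor
  · rintro ⟨c, hc, h⟩
    refine lt_of_lt_of_le hc ?_
    refine ge_of_tendsto (tendsto_disp_div g y) ?_
    filter_upwards [eventually_ge_atTop 1] with k hk
    have hk' : (0 : ℝ) < k := Nat.cast_pos.2 hk
    rw [le_div_iff₀ hk']
    exact h k
  · intro h
    refine ⟨stl g y, h, fun k => ?_⟩
    rw [mul_comm]
    exact mul_stl_le g y k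

end Pool.Agent.TVX
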