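import Pool.Agent.TVX.H1

/-!
# [TVX-H3] gap, growth, midpoint bound

Write `a_k = disp g y k`. The four point condition for `y, g^a y, g^(a+b) y, g^(a+b+c) y` is
`(*)  a_(a+b) + a_(b+c) ≤ max (a_a + a_c) (a_(a+b+c) + a_b) + δ`
(with `x := y`, `z := g^(a+b) y`, `y := g^a y`, `t := g^(a+b+c) y`, and `dist_pow_pow`).
Note that `0 ≤ δ` (take the four points equal).

* `exists_gap`: otherwise `a_(2s) < a_s + C` for all `s ≥ 1`, so `a_(2^k) ≤ a_1 + k C` by induction,
  but `a_(2^k) ≥ 2^k * stl g y` (`mul_stl_le`), and `2^k / k → ∞`: contradiction.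
* `growth`: `k = 0`: `2 a_1 ≥ a_2 ≥ a_1 + δ + G₀`. `k = 1`: hypothesis. `k → k + 1` (`k ≥ 1`): `(*)`
  with `(k, 1, 1)`: `a_(k+1) + a_2 ≤ max (a_k + a_1) (a_(k+2) + a_1) + δ`. As
  `a_(k+1) ≥ a_k + G₀` and `a_2 ≥ a_1 + δ + G₀`, the first alternative would give `2 G₀ ≤ 0`; the
  second gives `a_(k+2) ≥ a_(k+1) + a_2 - a_1 - δ ≥ a_(k+1) + G₀`.
* `mid`: `N = 0` trivial. `N ≥ 1`: `(*)` with `(N-1, 2, N-1)`:
  `2 a_(N+1) ≤ max (2 a_(N-1)) (a_(2N) + a_2) + δ`, and `a_(N+1) ≥ a_(N-1) + 2 G₀` by `growth`; the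
  first alternative would give `4 G₀ ≤ δ`, against `δ < G₀`, `0 ≤ δ`. The second gives
  `2 a_N ≤ 2 a_(N+1) ≤ a_(2N) + a_2 + δ`.
-/

namespace Pool.Agent.TVX

open Filter Topology

variable {G Y : Type*} [Group G] [PseudoMetricSpace Y] [MulAction G Y] [IsIsometricSMul G Y]

theorem fourPoint_nonneg {δ : ℝ} (hY : FourPoint Y δ) (y : Y) : 0 ≤ δ := by
  have h := hY y y y y
  simpa using h

/-- The four point condition for `y, g^a y, g^(a+b) y, g^(a+b+c) y`. -/
theorem fourPoint_disp {δ : ℝ} (hY : FourPoint Y δ) (g : G) (y : Y) (a b c : ℕ) :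
    disp g y (a + b) + disp g y (b + c) ≤
      max (disp g y a + disp g y c) (disp g y (a + b + c) + disp g y b) + δ := by
  have h := hY y (g ^ a • y) (g ^ (a + b) • y) (g ^ (a + b + c) • y)
  have h1 : dist (g ^ a • y) (g ^ (a + b + c) • y) = disp g y (b + c) := by
    rw [Nat.add_assoc]; exact dist_pow_pow g y a (b + c)
  have h2 : dist (g ^ (a + b) • y) (g ^ (a + b + c) • y) = disp g y c :=
    dist_pow_pow g y (a + b) c
  have h3 : dist (g ^ a • y) (g ^ (a + b) • y) = disp g y b := dist_pow_pow g y a b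
  rw [h1, h2, h3] at h
  exact h

theorem exists_gap (g : G) (y : Y) (h : 0 < stl g y) (C : ℝ) :
    ∃ s : ℕ, 1 ≤ s ∧ disp g y s + C ≤ disp g y (2 * s) := by
  by_contra hcon
  push Not at hcon
  have hind : ∀ k : ℕ, disp g y (2 ^ k) ≤ disp g y 1 + k * C := by
    intro k
    induction k with
    | zero => simp
    | succ k ih =>
      have h1 := hcon (2 ^ k) Nat.one_le_two_pow
      have h2 : 2 * 2 ^ k = 2 ^ (k + 1) := by ring
      rw [h2] at h1
      push_cast
      linarith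
  have hbd : ∀ k : ℕ, stl g y ≤ (disp g y 1 + k * C) / 2 ^ k := by
    intro k
    have h1 := mul_stl_le g y (2 ^ k)
    have h2 : (0 : ℝ) < 2 ^ k := by positivity
    rw [le_div_iff₀ h2]
    push_cast at h1
    have := hind k
    linarith
  have t1 : Tendsto (fun k : ℕ => (k : ℝ) ^ 1 / (2 : ℝ) ^ k) atTop (𝓝 0) :=
    tendsto_pow_const_div_const_pow_of_one_lt 1 (by norm_num)
  have t0 : Tendsto (fun k : ℕ => (k : ℝ) ^ 0 / (2 : ℝ) ^ k) atTop (𝓝 0) :=
    tendsto_pow_const_div_const_pow_of_one_lt 0 (by norm_num)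
  have t : Tendsto (fun k : ℕ => (disp g y 1 + k * C) / 2 ^ k) atTop (𝓝 0) := by
    have h3 := (t0.const_mul (disp g y 1)).add (t1.const_mul C)
    simp only [mul_zero, add_zero] at h3
    refine h3.congr (fun k => ?_)
    simp only [pow_zero, pow_one]
    ring
  have := ge_of_tendsto' t hbd
  linarith

theorem growth {δ : ℝ} (hY : FourPoint Y δ) (g : G) (y : Y) (G₀ : ℝ) (hG : 0 < G₀)
    (h : disp g y 1 + δ + G₀ ≤ disp g y 2) (k : ℕ) :
    disp g y k + G₀ ≤ disp g y (k + 1) := by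
  have hδ := fourPoint_nonneg hY y
  induction k with
  | zero =>
    have h1 := disp_add_le g y 1 1
    have h0 := disp_zero (G := G) g y
    norm_num at h1 ⊢
    rw [h0]
    linarith
  | succ k ih =>
    have h1 := fourPoint_disp hY g y k 1 1
    norm_num at h1
    have e1 : k + 1 + 1 = k + 2 := by ring
    rw [e1] at h1 ⊢
    rcases max_choice (disp g y k + disp g y 1) (disp g y (k + 2) + disp g y 1) with hm | hm
    · rw [hm] at h1
      exfalso
      linarith
    · rw [hm] at h1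
      linarith

theorem mid {δ : ℝ} (hY : FourPoint Y δ) (g : G) (y : Y) (G₀ : ℝ) (hG : δ < G₀)
    (h : disp g y 1 + δ + G₀ ≤ disp g y 2) (N : ℕ) :
    2 * disp g y N ≤ disp g y (2 * N) + (disp g y 2 + δ) := by
  have hδ := fourPoint_nonneg hY y
  have hG0 : 0 < G₀ := lt_of_le_of_lt hδ hG
  rcases N with _ | M
  · have h0 := disp_zero (G := G) g y
    have h2 := disp_nonneg g y 2
    simp only [Nat.mul_zero]
    rw [h0]
    linarith
  · have h1 := fourPoint_disp hY g y M 2 M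
    have e1 : 2 + M = M + 2 := by ring
    have e2 : M + 2 + M = 2 * (M + 1) := by ring
    rw [e2, e1] at h1
    have g1 := growth hY g y G₀ hG0 h M
    have g2 := growth hY g y G₀ hG0 h (M + 1)
    have e3 : M + 1 + 1 = M + 2 := by ring
    rw [e3] at g2
    rcases max_choice (disp g y M + disp g y M) (disp g y (2 * (M + 1)) + disp g y 2) with hm | hm
    · rw [hm] at h1
      exfalso
      linarith
    · rw [hm] at h1
      linarith

end Pool.Agent.TVX
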