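import Pool.Agent.TVX.H1

/-!
# [TVX-H4] the Busemann quasimorphism of an ultrafilter

`b_N(c) := dist (c • y) (g ^ N • y) - dist y (g ^ N • y)`.
* `bus_exists`: `|b_N(c)| ≤ dist (c • y) y`, so along the ultrafilter `hyperfilter ℕ` the sequence
  converges (compactness of `Set.Icc`, e.g. `IsCompact.ultrafilter_le_nhds` for
  `(hyperfilter ℕ).map _`); choose the limit for every `c`.
* `bus_quasi`: `c` commutes with `g`, `c'` arbitrary. Put `p = g^N y`, `q = g^N c⁻¹ y`,
  `D = dist p q = dist y (c⁻¹ y)` (independent of `N`). `dist (c c' y) p = dist (c' y) (c⁻¹ p)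
  = dist (c' y) q` and `dist (c y) p = dist y q`. Four point condition twice:
  `dist (c'y) q + dist y p ≤ max (dist (c'y) p + dist y q, dist (c'y) y + D) + δ`,
  `dist (c'y) p + dist y q ≤ max (dist (c'y) q + dist y p, dist (c'y) y + D) + δ`;
  in both cases the left-hand side is `≥ 2 dist y p - dist y (c'y) - D → ∞`, while
  `dist (c'y) y + D + δ` is constant, so for large `N` the first alternative holds and
  `|b_N(c c') - b_N(c) - b_N(c')| ≤ δ`. The set of large `N` is in the hyperfilter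
  (`Filter.hyperfilter_le_cofinite`, `Nat.cofinite_eq_atTop`); pass to the limit
  (`le_of_tendsto`, limit of `|…|`).
-/

namespace Pool.Agent.TVX

open Filter Topology

variable {G Y : Type*} [Group G] [PseudoMetricSpace Y] [MulAction G Y] [IsIsometricSMul G Y]

theorem bus_exists (g : G) (y : Y) :
    ∃ β : G → ℝ, ∀ c : G,
      Tendsto (fun N : ℕ => dist (c • y) (g ^ N • y) - dist y (g ^ N • y))
        (hyperfilter ℕ) (𝓝 (β c)) := by
  have h : ∀ c : G, ∃ b : ℝ, Tendsto (fun N : ℕ => dist (c • y) (g ^ N • y) - dist y (g ^ N • y))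
      (hyperfilter ℕ) (𝓝 b) := by
    intro c
    have h1 : (((hyperfilter ℕ).map (fun N : ℕ => dist (c • y) (g ^ N • y) - dist y (g ^ N • y)) :
        Ultrafilter ℝ) : Filter ℝ) ≤ 𝓟 (Set.Icc (-dist (c • y) y) (dist (c • y) y)) := by
      rw [le_principal_iff, Ultrafilter.mem_coe, Ultrafilter.mem_map]
      refine Filter.univ_mem' fun N => ?_
      have h2 : |dist (c • y) (g ^ N • y) - dist y (g ^ N • y)| ≤ dist (c • y) y :=
        abs_dist_sub_le _ _ _
      exact abs_le.1 h2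
    obtain ⟨b, _, hb⟩ := isCompact_Icc.ultrafilter_le_nhds _ h1
    exact ⟨b, hb⟩
  choose β hβ using h
  exact ⟨β, hβ⟩

theorem bus_quasi {δ : ℝ} (hY : FourPoint Y δ) (g : G) (y : Y)
    (h : Tendsto (disp g y) atTop atTop) (β : G → ℝ)
    (hβ : ∀ c : G, Tendsto (fun N : ℕ => dist (c • y) (g ^ N • y) - dist y (g ^ N • y))
      (hyperfilter ℕ) (𝓝 (β c)))
    (c c' : G) (hc : Commute c g) : |β (c * c') - β c - β c'| ≤ δ := by
  have hT := (((hβ (c * c')).sub (hβ c)).sub (hβ c')).abs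
  refine le_of_tendsto hT ?_
  have hle : ((hyperfilter ℕ : Ultrafilter ℕ) : Filter ℕ) ≤ atTop := by
    rw [← Nat.cofinite_eq_atTop]
    exact hyperfilter_le_cofinite
  refine hle ?_
  filter_upwards [h.eventually_gt_atTop (dist (c' • y) y + dist y (c⁻¹ • y) + |δ|)] with N hN
  have hN' : dist (c' • y) y + dist y (c⁻¹ • y) + |δ| < dist y (g ^ N • y) := hN
  have hq : c⁻¹ • g ^ N • y = g ^ N • c⁻¹ • y := by
    rw [← mul_smul, ← mul_smul, ((hc.inv_left).pow_right N).eq]
  have e1 : dist ((c * c') • y) (g ^ N • y) = dist (c' • y) (g ^ N • c⁻¹ • y) := by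
    rw [← hq, mul_smul, ← dist_smul c (c' • y) (c⁻¹ • g ^ N • y), smul_inv_smul]
  have e2 : dist (c • y) (g ^ N • y) = dist y (g ^ N • c⁻¹ • y) := by
    rw [← hq, ← dist_smul c y (c⁻¹ • g ^ N • y), smul_inv_smul]
  have e3 : dist (g ^ N • c⁻¹ • y) (g ^ N • y) = dist y (c⁻¹ • y) := by
    rw [dist_smul, dist_comm]
  have e4 : dist (g ^ N • y) (g ^ N • c⁻¹ • y) = dist y (c⁻¹ • y) := dist_smul _ _ _
  have f1 := hY (c' • y) y (g ^ N • c⁻¹ • y) (g ^ N • y)
  have f2 := hY (c' • y) y (g ^ N • y) (g ^ N • c⁻¹ • y)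
  rw [e3] at f1
  rw [e4] at f2
  -- triangle inequalities
  have t1 : dist y (g ^ N • y) ≤ dist y (c' • y) + dist (c' • y) (g ^ N • c⁻¹ • y) +
      dist (g ^ N • c⁻¹ • y) (g ^ N • y) :=
    (dist_triangle _ (g ^ N • c⁻¹ • y) _).trans (by gcongr; exact dist_triangle _ _ _)
  have t2 : dist y (g ^ N • y) ≤ dist y (c' • y) + dist (c' • y) (g ^ N • y) :=
    dist_triangle _ _ _
  have t3 : dist y (g ^ N • y) ≤ dist y (g ^ N • c⁻¹ • y) +
      dist (g ^ N • c⁻¹ • y) (g ^ N • y) := dist_triangle _ _ _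
  rw [e3] at t1 t3
  rw [dist_comm y (c' • y)] at t1 t2
  have hδ := le_abs_self δ
  have hδ0 := abs_nonneg δ
  have n1 : 0 ≤ dist (c' • y) y := dist_nonneg
  have n2 : 0 ≤ dist y (c⁻¹ • y) := dist_nonneg
  rw [e1, e2, abs_le]
  rcases le_max_iff.1 (sub_le_iff_le_add.2 f1) with g1 | g1 <;>
    rcases le_max_iff.1 (sub_le_iff_le_add.2 f2) with g2 | g2
  · exfalso; linarith
  · exfalso; linarith
  · exfalso; linarith
  · constructor <;> linarith

end Pool.Agent.TVX
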