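import Pool.Agent.TVX.H1

/-!
# [TVX-H5] displacement of elements of the centraliser

`c` commutes with `g`. Put `y' = c y`, `p = g^N y`, `q = g⁻¹^N y`, `D = dist y y'`. Then
`dist y p = dist y q = a_N`, `dist p q = a_(2N)` (`dist_inv_pow`, `disp_inv_pow`),
`dist (c p) p = dist (c q) q = D` (`c g^N y = g^N c y`), `dist y' (c p) = dist y' (c q) = a_N`,
`dist (c p) (c q) = a_(2N) ≥ 2 a_N - A`. Everything for `N` large; `a_N → ∞`.
Step 1. Four points `y', p, c p, c q`: `S1 = dist y' p + dist (cp) (cq)`,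
`S2 = dist y' (cp) + dist p (cq)`, `S3 = dist y' (cq) + dist p (cp)`, `S1 ≤ max S2 S3 + δ`.
`S1 ≥ (a_N - D) + 2 a_N - A`, `S3 = a_N + D`, so `S1 > S3 + δ` for large `N`, hence `S1 ≤ S2 + δ`:
`dist y' p + a_(2N) ≤ a_N + dist p (cq) + δ`.
Step 2. Four points `y', p, q, c q`: `S1 = dist y' q + dist p (cq)`, `S2 = dist y' (cq) + dist p q
= a_N + a_(2N)`, `S3 = dist y' p + D`; `S1 ≥ (a_N - D) + dist y' p + a_(2N) - a_N - δ
= dist y' p + a_(2N) - D - δ > S3 + δ` for large `N`, so `S1 ≤ S2 + δ`. Together with step 1: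
`dist y' q + dist y' p ≤ 2 a_N + 2 δ`.
(Check: `dist y' q + dist p (cq) ≤ a_N + a_(2N) + δ` and `dist p (cq) ≥ dist y' p + a_(2N) - a_N - δ`.)
Step 3. Four points `y, y', p, q`: `D + dist p q ≤ max (dist y p + dist y' q, dist y q + dist y' p)
+ δ`. First case: `D + a_(2N) ≤ a_N + dist y' q + δ ≤ a_N + (2 a_N + 2 δ - dist y' p) + δ`, so
`D ≤ 3 a_N - a_(2N) - dist y' p + 3 δ ≤ (a_N - dist y' p) + A + 3 δ = - b_N + A + 3 δ`.
Second case: `D ≤ a_N + dist y' p - a_(2N) + δ ≤ b_N + A + δ`, where `b_N = dist y' p - a_N`.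
So `D ≤ |b_N| + A + 3 δ` for all large `N` (`0 ≤ δ`), and one passes to the limit along the
hyperfilter (`Filter.hyperfilter_le_cofinite`, `Nat.cofinite_eq_atTop`).
-/

namespace Pool.Agent.TVX

open Filter Topology

variable {G Y : Type*} [Group G] [PseudoMetricSpace Y] [MulAction G Y] [IsIsometricSMul G Y]

theorem bus_lower {δ : ℝ} (hY : FourPoint Y δ) (g : G) (y : Y) (A : ℝ)
    (hA : ∀ N : ℕ, 2 * disp g y N ≤ disp g y (2 * N) + A)
    (h : Tendsto (disp g y) atTop atTop) (β : G → ℝ)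
    (hβ : ∀ c : G, Tendsto (fun N : ℕ => dist (c • y) (g ^ N • y) - dist y (g ^ N • y))
      (hyperfilter ℕ) (𝓝 (β c)))
    (c : G) (hc : Commute c g) : dist y (c • y) ≤ |β c| + A + 3 * δ := by
  have hδ : 0 ≤ δ := by
    have h0 := hY y y y y
    simpa using h0
  have hlim : Tendsto (fun N : ℕ => |dist (c • y) (g ^ N • y) - dist y (g ^ N • y)| + A + 3 * δ)
      (hyperfilter ℕ) (𝓝 (|β c| + A + 3 * δ)) :=
    (((hβ c).abs).add_const A).add_const (3 * δ)
  have hev : ∀ᶠ N in (atTop : Filter ℕ), dist y (c • y) + A + δ + 1 < disp g y N := by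
    exact h.eventually_gt_atTop _
  have hev' : ∀ᶠ N in ((hyperfilter ℕ : Ultrafilter ℕ) : Filter ℕ),
      dist y (c • y) + A + δ + 1 < disp g y N := by
    have hle : ((hyperfilter ℕ : Ultrafilter ℕ) : Filter ℕ) ≤ atTop :=
      Nat.hyperfilter_le_atTop
    exact hle hev
  refine ge_of_tendsto hlim (hev'.mono fun N hN => ?_)
  have hA0 : 0 ≤ A := by
    have h1 := hA 0
    have h2 : disp g y 0 = 0 := disp_zero g y
    simp only [mul_zero, h2] at h1
    linarith
  have hD0 : 0 ≤ dist y (c • y) := dist_nonneg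
  have hcN : c * g ^ N = g ^ N * c := (hc.pow_right N).eq
  have hcN' : c * g⁻¹ ^ N = g⁻¹ ^ N * c := ((hc.inv_right).pow_right N).eq
  -- the basic distances
  have hyp : dist y (g ^ N • y) = disp g y N := rfl
  have hyq : dist y (g⁻¹ ^ N • y) = disp g y N := dist_inv_pow g y N
  have hpq : dist (g ^ N • y) (g⁻¹ ^ N • y) = disp g y (2 * N) := disp_inv_pow g y N
  have hcpp : dist (c • g ^ N • y) (g ^ N • y) = dist y (c • y) := by
    rw [← mul_smul, hcN, mul_smul, dist_smul, dist_comm]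
  have hcqq : dist (c • g⁻¹ ^ N • y) (g⁻¹ ^ N • y) = dist y (c • y) := by
    rw [← mul_smul, hcN', mul_smul, dist_smul, dist_comm]
  have hycp : dist (c • y) (c • g ^ N • y) = disp g y N := by
    rw [dist_smul]; exact hyp
  have hycq : dist (c • y) (c • g⁻¹ ^ N • y) = disp g y N := by
    rw [dist_smul]; exact hyq
  have hcpcq : dist (c • g ^ N • y) (c • g⁻¹ ^ N • y) = disp g y (2 * N) := by
    rw [dist_smul]; exact hpq
  have hAN := hA N
  -- triangle inequalities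
  have ht1 : dist y (g ^ N • y) ≤ dist y (c • y) + dist (c • y) (g ^ N • y) :=
    dist_triangle _ _ _
  have ht2 : dist y (g⁻¹ ^ N • y) ≤ dist y (c • y) + dist (c • y) (g⁻¹ ^ N • y) :=
    dist_triangle _ _ _
  have h1 := hY (c • y) (c • g ^ N • y) (g ^ N • y) (c • g⁻¹ ^ N • y)
  have h2 := hY (c • y) (c • g⁻¹ ^ N • y) (g⁻¹ ^ N • y) (g ^ N • y)
  have h3 := hY y (g ^ N • y) (c • y) (g⁻¹ ^ N • y)
  rw [hcpcq, hycp, hycq, hcpp] at h1
  rw [hycq, hcqq, dist_comm (g⁻¹ ^ N • y) (g ^ N • y), hpq,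
    dist_comm (c • g⁻¹ ^ N • y) (g ^ N • y)] at h2
  rw [hpq, hyq, hyp, dist_comm (g ^ N • y) (c • y)] at h3
  rw [hyp] at ht1 ⊢
  rw [hyq] at ht2
  have habs1 := le_abs_self (dist (c • y) (g ^ N • y) - disp g y N)
  have habs2 := neg_abs_le (dist (c • y) (g ^ N • y) - disp g y N)
  have e1 : dist (c • y) (g ^ N • y) + disp g y (2 * N)
      ≤ disp g y N + dist (g ^ N • y) (c • g⁻¹ ^ N • y) + δ := by
    rcases max_cases (disp g y N + dist (g ^ N • y) (c • g⁻¹ ^ N • y))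
      (disp g y N + dist y (c • y)) with hm | hm
    · rw [hm.1] at h1; exact h1
    · rw [hm.1] at h1; exfalso; linarith
  have e2 : dist (c • y) (g⁻¹ ^ N • y) + dist (g ^ N • y) (c • g⁻¹ ^ N • y)
      ≤ disp g y N + disp g y (2 * N) + δ := by
    rcases max_cases (disp g y N + disp g y (2 * N))
      (dist (c • y) (g ^ N • y) + dist y (c • y)) with hm | hm
    · rw [hm.1] at h2; exact h2
    · rw [hm.1] at h2; exfalso; linarith
  rcases max_cases (disp g y N + dist (c • y) (g⁻¹ ^ N • y))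
      (disp g y N + dist (c • y) (g ^ N • y)) with hm | hm
  · rw [hm.1] at h3; linarith
  · rw [hm.1] at h3; linarith

end Pool.Agent.TVX
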