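import Pool.Agent.TVX.Defs

/-!
# [TVX-Q1] homogenisation of quasimorphisms

`0 ≤ D` (take `a = b = 1`, or `abs_nonneg`). By induction `|β (a^k) - k β a| ≤ (k + 1) D`.
`u k := β (a^k) + D` is subadditive and bounded below, so `β (a^k) / k`
converges (`Subadditive.tendsto_lim`); let `f a` be the limit. `|f a - β a| ≤ D` from the first
estimate. `f` is a quasimorphism with defect `4 D`.
`f (a^k) = k f a`: subsequence (`k = 0`: `β 1 / m → 0`).
-/

namespace Pool.Agent.TVX

open Filter Topology

theorem homogenize {G : Type*} [Group G] (C : Subgroup G) (β : G → ℝ) (D : ℝ)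
    (h : ∀ a ∈ C, ∀ b ∈ C, |β (a * b) - β a - β b| ≤ D) :
    ∃ f : G → ℝ, HQM C f ∧ ∀ a ∈ C, |f a - β a| ≤ D := by
  classical
  have hD : 0 ≤ D := le_trans (abs_nonneg _) (h 1 C.one_mem 1 C.one_mem)
  have h1 : |β 1| ≤ D := by
    have := h 1 C.one_mem 1 C.one_mem
    rw [mul_one] at this
    have e : β 1 - β 1 - β 1 = -β 1 := by ring
    rwa [e, abs_neg] at this
  have hE : ∀ a ∈ C, ∀ k : ℕ, |β (a ^ k) - k * β a| ≤ (k + 1) * D := by
    intro a ha k
    induction k with
    | zero => simpa using h1
    | succ k ih =>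
      have h2 := h (a ^ k) (C.pow_mem ha k) a ha
      rw [← pow_succ] at h2
      have e : β (a ^ (k + 1)) - ((k + 1 : ℕ) : ℝ) * β a =
          (β (a ^ (k + 1)) - β (a ^ k) - β a) + (β (a ^ k) - k * β a) := by push_cast; ring
      rw [e]
      refine (abs_add_le _ _).trans ?_
      push_cast
      linarith
  have hlim : ∀ a ∈ C, ∃ L : ℝ, Tendsto (fun n : ℕ => β (a ^ n) / n) atTop (𝓝 L) := by
    intro a ha
    have hsub : Subadditive (fun n : ℕ => β (a ^ n) + D) := by
      intro m n
      have h2 := (abs_le.mp (h (a ^ m) (C.pow_mem ha m) (a ^ n) (C.pow_mem ha n))).2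
      rw [← pow_add] at h2
      simp only
      linarith
    have hbdd : BddBelow (Set.range fun n : ℕ => (β (a ^ n) + D) / n) := by
      refine ⟨min (β a - D) 0, ?_⟩
      rintro _ ⟨n, rfl⟩
      simp only
      rcases Nat.eq_zero_or_pos n with rfl | hn
      · simp
      · refine (min_le_left _ _).trans ?_
        have hn' : (0 : ℝ) < n := by exact_mod_cast hn
        rw [le_div_iff₀ hn']
        have h3 := (abs_le.mp (hE a ha n)).1
        nlinarith
    refine ⟨hsub.lim, ?_⟩
    have h4 := hsub.tendsto_lim hbdd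
    have h5 : Tendsto (fun n : ℕ => D / (n : ℝ)) atTop (𝓝 0) :=
      tendsto_const_div_atTop_nhds_zero_nat D
    have h6 := h4.sub h5
    rw [sub_zero] at h6
    refine h6.congr fun n => ?_
    ring
  let f : G → ℝ := fun a => if ha : a ∈ C then (hlim a ha).choose else 0
  have hf : ∀ a ∈ C, Tendsto (fun n : ℕ => β (a ^ n) / n) atTop (𝓝 (f a)) := by
    intro a ha
    have : f a = (hlim a ha).choose := by simp [f, ha]
    rw [this]
    exact (hlim a ha).choose_spec
  have hclose : ∀ a ∈ C, |f a - β a| ≤ D := by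
    intro a ha
    have h7 : Tendsto (fun n : ℕ => |β (a ^ n) / n - β a|) atTop (𝓝 |f a - β a|) :=
      ((hf a ha).sub_const _).abs
    have h8 : Tendsto (fun n : ℕ => D + D / (n : ℝ)) atTop (𝓝 (D + 0)) :=
      (tendsto_const_nhds).add (tendsto_const_div_atTop_nhds_zero_nat D)
    rw [add_zero] at h8
    refine le_of_tendsto_of_tendsto h7 h8 ?_
    filter_upwards [eventually_gt_atTop 0] with n hn
    have hn' : (0 : ℝ) < n := by exact_mod_cast hn
    have e : β (a ^ n) / n - β a = (β (a ^ n) - n * β a) / n := by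
      field_simp
    rw [e, abs_div, abs_of_pos hn', div_le_iff₀ hn']
    have e2 : (D + D / n) * n = (n + 1) * D := by
      field_simp
    rw [e2]
    exact hE a ha n
  refine ⟨f, ⟨⟨4 * D, ?_⟩, ?_⟩, hclose⟩
  · intro a ha b hb
    have hab := abs_le.mp (hclose (a * b) (C.mul_mem ha hb))
    have ha' := abs_le.mp (hclose a ha)
    have hb' := abs_le.mp (hclose b hb)
    have hh := abs_le.mp (h a ha b hb)
    rw [abs_le]
    constructor <;> linarith [hab.1, hab.2, ha'.1, ha'.2, hb'.1, hb'.2, hh.1, hh.2]
  · intro a ha k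
    rcases Nat.eq_zero_or_pos k with rfl | hk
    · have h9 := hf 1 C.one_mem
      have h10 : Tendsto (fun n : ℕ => β ((1 : G) ^ n) / n) atTop (𝓝 0) := by
        simp only [one_pow]
        exact tendsto_const_div_atTop_nhds_zero_nat _
      have h11 := tendsto_nhds_unique h9 h10
      simpa using h11
    · have h12 := hf (a ^ k) (C.pow_mem ha k)
      have h13 : Tendsto (fun n : ℕ => k * n) atTop atTop :=
        tendsto_id.const_mul_atTop' hk
      have h14 := ((hf a ha).comp h13).const_mul (k : ℝ)
      have hk' : (k : ℝ) ≠ 0 := by positivity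
      refine tendsto_nhds_unique h12 (h14.congr fun n => ?_)
      simp only [Function.comp_apply]
      rw [pow_mul]
      push_cast
      rcases Nat.eq_zero_or_pos n with rfl | hn
      · simp
      · have hn' : (n : ℝ) ≠ 0 := by positivity
        field_simp

end Pool.Agent.TVX
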