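import Pool.Agent.TVX.H2
import Pool.Agent.TVX.H3
import Pool.Agent.TVX.H4
import Pool.Agent.TVX.H5
import Pool.Agent.TVX.Q1

/-!
# [TVX-H6] KEY LEMMA: the quasimorphism on the centraliser of a loxodromic element

`exists_gap` with `C := δ + (δ + 1)` gives `s ≥ 1`; put `g' = g ^ s`; then
`disp g' y k = disp g y (s * k)` (`disp_pow`), so `disp g' y 1 + δ + (δ + 1) ≤ disp g' y 2`, and
`stl g' y = s * stl g y > 0`. `mid` with `G₀ = δ + 1` gives the hypothesis of `bus_lower` with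
`A = disp g' y 2 + δ`. Every `c ∈ C` commutes with `g'`. `bus_exists`, `bus_quasi` and `homogenize`
(with `D = δ`) give `f` with `|f c - β c| ≤ δ` on `C`.
`|f c| ≤ stl c y`: `k |f c| = |f (c^k)| ≤ |β (c^k)| + δ ≤ dist y (c^k y) + δ` (the last because
`|b_N(c)| ≤ dist (c y) y` for all `N`, pass to the limit); divide by `k`, `tendsto_disp_div`.
`stl c y ≤ |f c|`: `k stl c y ≤ dist y (c^k y) ≤ |β (c^k)| + A + 3 δ ≤ k |f c| + A + 4 δ` by
`mul_stl_le`, `bus_lower`; divide by `k`.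
-/

namespace Pool.Agent.TVX

open Filter Topology

theorem key {G Y : Type*} [Group G] [PseudoMetricSpace Y] [MulAction G Y] [IsIsometricSMul G Y]
    {δ : ℝ} (hY : FourPoint Y δ) (g : G) (y : Y) (hg : 0 < stl g y) (C : Subgroup G)
    (hC : ∀ c ∈ C, Commute c g) : ∃ f : G → ℝ, HQM C f ∧ ∀ c ∈ C, |f c| = stl c y := by
  have hδ : 0 ≤ δ := fourPoint_nonneg hY y
  obtain ⟨s, hs1, hs⟩ := exists_gap g y hg (δ + (δ + 1))
  have hgap : disp (g ^ s) y 1 + δ + (δ + 1) ≤ disp (g ^ s) y 2 := by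
    rw [disp_pow, disp_pow, mul_one, mul_comm s 2]
    linarith
  have hstl : 0 < stl (g ^ s) y := by
    rw [stl_pow]
    have : (0 : ℝ) < s := by exact_mod_cast hs1
    positivity
  have hC' : ∀ c ∈ C, Commute c (g ^ s) := fun c hc => (hC c hc).pow_right s
  have hA : ∀ N : ℕ, 2 * disp (g ^ s) y N
      ≤ disp (g ^ s) y (2 * N) + (disp (g ^ s) y 2 + δ) :=
    fun N => mid hY (g ^ s) y (δ + 1) (by linarith) hgap N
  have hT := tendsto_disp_atTop (g ^ s) y hstl
  obtain ⟨β, hβ⟩ := bus_exists (g ^ s) y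
  obtain ⟨f, hf, hfβ⟩ := homogenize C β δ
    (fun a ha b _ => bus_quasi hY (g ^ s) y hT β hβ a b (hC' a ha))
  refine ⟨f, hf, fun c hc => ?_⟩
  have hβle : ∀ b : G, |β b| ≤ dist y (b • y) := by
    intro b
    refine le_of_tendsto (hβ b).abs (Eventually.of_forall fun N => ?_)
    rw [dist_comm y (b • y)]
    exact abs_dist_sub_le (b • y) y (((g ^ s) ^ N) • y)
  have hup : ∀ k : ℕ, (k : ℝ) * |f c| ≤ disp c y k + δ := by
    intro k
    have hk : c ^ k ∈ C := C.pow_mem hc k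
    have h1 : f (c ^ k) = k * f c := hf.2 c hc k
    have h2 := hfβ (c ^ k) hk
    have h3 := hβle (c ^ k)
    have h4 : (k : ℝ) * |f c| = |f (c ^ k)| := by
      rw [h1, abs_mul, Nat.abs_cast]
    have h5 : |f (c ^ k)| ≤ |f (c ^ k) - β (c ^ k)| + |β (c ^ k)| := by
      have := abs_add_le (f (c ^ k) - β (c ^ k)) (β (c ^ k))
      simpa using this
    have h6 : disp c y k = dist y (c ^ k • y) := rfl
    rw [h4, h6]
    linarith
  have hlo : ∀ k : ℕ, (k : ℝ) * stl c y
      ≤ k * |f c| + ((disp (g ^ s) y 2 + δ) + 4 * δ) := by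
    intro k
    have hk : c ^ k ∈ C := C.pow_mem hc k
    have h1 : f (c ^ k) = k * f c := hf.2 c hc k
    have h2 := hfβ (c ^ k) hk
    have h3 := bus_lower hY (g ^ s) y _ hA hT β hβ (c ^ k) (hC' _ hk)
    have h4 : (k : ℝ) * |f c| = |f (c ^ k)| := by
      rw [h1, abs_mul, Nat.abs_cast]
    have h5 : |β (c ^ k)| ≤ |f (c ^ k) - β (c ^ k)| + |f (c ^ k)| := by
      have := abs_sub_abs_le_abs_sub (β (c ^ k)) (f (c ^ k))
      rw [abs_sub_comm (β (c ^ k)) (f (c ^ k))] at this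
      linarith
    have h6 : disp c y k = dist y (c ^ k • y) := rfl
    have h7 := mul_stl_le c y k
    rw [h4]
    linarith
  have key1 : ∀ x z K : ℝ, (∀ k : ℕ, (k : ℝ) * x ≤ k * z + K) → x ≤ z := by
    intro x z K hk
    by_contra hlt
    push Not at hlt
    obtain ⟨k, hk'⟩ := exists_nat_gt (K / (x - z))
    have hpos : 0 < x - z := by linarith
    rw [div_lt_iff₀ hpos] at hk'
    have := hk k
    nlinarith
  refine le_antisymm ?_ ?_
  · have htend := tendsto_disp_div c y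
    have htend2 : Tendsto (fun k : ℕ => disp c y k / k + δ / k) atTop (𝓝 (stl c y + 0)) :=
      htend.add (tendsto_const_div_atTop_nhds_zero_nat δ)
    rw [add_zero] at htend2
    refine ge_of_tendsto htend2 ((eventually_ge_atTop 1).mono fun k hk => ?_)
    have hk0 : (0 : ℝ) < k := by exact_mod_cast hk
    rw [← add_div, le_div_iff₀ hk0, mul_comm]
    exact hup k
  · exact key1 _ _ _ hlo

end Pool.Agent.TVX
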