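import Pool.Agent.TVX.Q2

/-!
# [TVX-L1] length systems and the counting argument

A group `G` acts on an index set `I`; for every `i` there is a length `τ i` on the normal subgroup
`M` with the properties of stable lengths of isometric actions on hyperbolic spaces.

THEOREM `exists_hqm`. Let `R₁, R₂ : F →* G`, `s, t : G` with `s R₁(w) s⁻¹ = R₂(w)`,
`t R₂(w) t⁻¹ = R₁(w) R₂(w)`, and let all `R₁(w)`, `R₂(w')` commute; `K ≤ F` with `R₁(K) ≤ M`. Then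
for every `i` there is a homogeneous quasimorphism `f` on `K` with `|f(w)| = τ_i(R₁(w))` on `K`.

PROOF. For a function `T : F → ℝ` let `Q(T)` mean: there is `f` with `HQM K f` and `|f| = T` on `K`.
Let `R₁₂(w) = R₁(w) R₂(w)`, and `S₁ = {i | ¬ Q(τ_i ∘ R₁)}`, `S₂`, `S₁₂` likewise (finite sets).
`R₂(w), R₁₂(w) ∈ M` for `w ∈ K` (`M` normal). By `conj`: `τ_(s•i)(R₂ w) = τ_i(R₁ w)` and
`τ_(t•i)(R₁₂ w) = τ_i(R₂ w)` for `w ∈ K`, so `i ↦ s • i` is a bijection `S₁ → S₂` and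
`i ↦ t • i` a bijection `S₂ → S₁₂`; all three have the same cardinality.
Let `i ∈ S₁`. (a) There is `w₀ ∈ K` with `τ_i(R₁ w₀) > 0` (otherwise `f = 0` works, `hqm_zero`).
`central` with `g = R₁ w₀`, `C = K.map R₂` gives `f₀` and `Q(τ_i ∘ R₂)` (`hqm_comp`), so `i ∉ S₂`.
(b) `τ_i(R₂ w) = 0` for all `w ∈ K`: otherwise `central` with `g = R₂ w`, `C = K.map R₁` gives
`Q(τ_i ∘ R₁)`. (c) So `τ_i(R₁₂ w) = τ_i(R₁ w)` for `w ∈ K`: `comm` for `R₁ w, R₂ w` and for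
`R₁ w R₂ w, R₂ w⁻¹`. Hence `i ∈ S₁₂`. Symmetrically `S₂ ⊆ S₁₂` and `S₁ ∩ S₂ = ∅`. So
`|S₁₂| ≥ |S₁| + |S₂| = 2 |S₁₂|` and `S₁ = ∅`.
(Symmetric case: `i ∈ S₂`: some `τ_i(R₂ w₀) > 0`, so `Q(τ_i ∘ R₁)`; `τ_i ∘ R₁ = 0` on `K`.)
-/

namespace Pool.Agent.TVX

structure LengthSystem (G : Type*) [Group G] (I : Type*) [MulAction G I] where
  M : Subgroup G
  normal : M.Normal
  τ : I → G → ℝ
  nonneg : ∀ i, ∀ h ∈ M, 0 ≤ τ i h
  pow : ∀ i, ∀ h ∈ M, ∀ k : ℕ, τ i (h ^ k) = k * τ i h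
  comm : ∀ i, ∀ h ∈ M, ∀ h' ∈ M, Commute h h' → τ i (h * h') ≤ τ i h + τ i h'
  conj : ∀ (g : G) (i : I), ∀ h ∈ M, τ (g • i) (g * h * g⁻¹) = τ i h
  central : ∀ i, ∀ g ∈ M, 0 < τ i g → ∀ C : Subgroup G, C ≤ M → (∀ c ∈ C, Commute c g) →
    ∃ f : G → ℝ, HQM C f ∧ ∀ c ∈ C, |f c| = τ i c

/-- `T` is on `K` the absolute value of a homogeneous quasimorphism. -/
def QF {F : Type*} [Group F] (K : Subgroup F) (T : F → ℝ) : Prop :=
  ∃ f : F → ℝ, HQM K f ∧ ∀ w ∈ K, |f w| = T w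

theorem QF.congr {F : Type*} [Group F] {K : Subgroup F} {T T' : F → ℝ} (h : QF K T)
    (e : ∀ w ∈ K, T w = T' w) : QF K T' := by
  obtain ⟨f, hf, hT⟩ := h
  exact ⟨f, hf, fun w hw => (hT w hw).trans (e w hw)⟩

/-- one half of the argument: `R, R'` commute elementwise and the length of `R` is not a
quasimorphism on `K`. Then that of `R'` is one, and `τ i (R' w) = 0` for `w ∈ K`, hence the length
of `R w * R' w` is that of `R w`. -/
theorem LengthSystem.half {G I F : Type*} [Group G] [MulAction G I] [Group F]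
    (𝓢 : LengthSystem G I) (R R' : F →* G) (hc : ∀ w w', Commute (R w) (R' w'))
    (K : Subgroup F) (hK : ∀ w ∈ K, R w ∈ 𝓢.M) (hK' : ∀ w ∈ K, R' w ∈ 𝓢.M) (i : I)
    (hn : ¬ QF K (fun w => 𝓢.τ i (R w))) :
    QF K (fun w => 𝓢.τ i (R' w)) ∧ ∀ w ∈ K, 𝓢.τ i (R w * R' w) = 𝓢.τ i (R w) := by
  have h0 : ∃ w₀ ∈ K, 0 < 𝓢.τ i (R w₀) := by
    by_contra hcon
    push Not at hcon
    apply hn
    refine ⟨fun _ => 0, hqm_zero K, fun w hw => ?_⟩
    rw [abs_zero]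
    exact le_antisymm (𝓢.nonneg i _ (hK w hw)) (hcon w hw)
  obtain ⟨w₀, hw₀, hpos⟩ := h0
  have key : ∀ (A B : F →* G), (∀ w w', Commute (A w) (B w')) → (∀ w ∈ K, A w ∈ 𝓢.M) →
      (∀ w ∈ K, B w ∈ 𝓢.M) → ∀ v ∈ K, 0 < 𝓢.τ i (A v) → QF K (fun w => 𝓢.τ i (B w)) := by
    intro A B hAB hA hB v hv hvpos
    obtain ⟨f, hf, hfτ⟩ := 𝓢.central i (A v) (hA v hv) hvpos (K.map B)
      (by
        rintro _ ⟨w, hw, rfl⟩
        exact hB w hw)
      (by
        rintro _ ⟨w, hw, rfl⟩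
        exact (hAB v w).symm)
    refine ⟨fun w => f (B w), hqm_comp hf B K (fun w hw => Subgroup.mem_map_of_mem B hw),
      fun w hw => hfτ _ (Subgroup.mem_map_of_mem B hw)⟩
  have hR' : QF K (fun w => 𝓢.τ i (R' w)) := key R R' hc hK hK' w₀ hw₀ hpos
  have hz : ∀ w ∈ K, 𝓢.τ i (R' w) = 0 := by
    intro w hw
    by_contra hne
    have hp : 0 < 𝓢.τ i (R' w) := lt_of_le_of_ne (𝓢.nonneg i _ (hK' w hw)) (Ne.symm hne)
    exact hn (key R' R (fun a b => (hc b a).symm) hK' hK w hw hp)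
  refine ⟨hR', fun w hw => le_antisymm ?_ ?_⟩
  · have h1 := 𝓢.comm i (R w) (hK w hw) (R' w) (hK' w hw) (hc w w)
    rw [hz w hw, add_zero] at h1
    exact h1
  · have hm : R w * R' w ∈ 𝓢.M := 𝓢.M.mul_mem (hK w hw) (hK' w hw)
    have hinv : R' w⁻¹ ∈ 𝓢.M := hK' _ (K.inv_mem hw)
    have hcomm : Commute (R w * R' w) (R' w⁻¹) := by
      refine Commute.mul_left (hc w w⁻¹) ?_
      rw [map_inv]
      exact (Commute.refl (R' w)).inv_right
    have h1 := 𝓢.comm i (R w * R' w) hm (R' w⁻¹) hinv hcomm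
    rw [hz _ (K.inv_mem hw), add_zero] at h1
    have h2 : R w * R' w * R' w⁻¹ = R w := by
      rw [map_inv, mul_inv_cancel_right]
    rw [h2] at h1
    exact h1

theorem LengthSystem.exists_hqm {G I F : Type*} [Group G] [Finite I] [MulAction G I] [Group F]
    (𝓢 : LengthSystem G I) (R₁ R₂ : F →* G) (s t : G)
    (hs : ∀ w, s * R₁ w * s⁻¹ = R₂ w) (ht : ∀ w, t * R₂ w * t⁻¹ = R₁ w * R₂ w)
    (hc : ∀ w w', Commute (R₁ w) (R₂ w')) (K : Subgroup F) (hK : ∀ w ∈ K, R₁ w ∈ 𝓢.M) (i : I) :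
    ∃ f : F → ℝ, HQM K f ∧ ∀ w ∈ K, |f w| = 𝓢.τ i (R₁ w) := by
  have hN := 𝓢.normal
  have hK2 : ∀ w ∈ K, R₂ w ∈ 𝓢.M := by
    intro w hw
    rw [← hs w]
    exact hN.conj_mem _ (hK w hw) s
  have e1 : ∀ j : I, ∀ w ∈ K, 𝓢.τ (s • j) (R₂ w) = 𝓢.τ j (R₁ w) := by
    intro j w hw
    rw [← hs w]
    exact 𝓢.conj s j _ (hK w hw)
  have e2 : ∀ j : I, ∀ w ∈ K, 𝓢.τ (t • j) (R₁ w * R₂ w) = 𝓢.τ j (R₂ w) := by
    intro j w hw
    rw [← ht w]
    exact 𝓢.conj t j _ (hK2 w hw)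
  set S₁ : Set I := {j | ¬ QF K (fun w => 𝓢.τ j (R₁ w))} with hS₁
  set S₂ : Set I := {j | ¬ QF K (fun w => 𝓢.τ j (R₂ w))} with hS₂
  set S₃ : Set I := {j | ¬ QF K (fun w => 𝓢.τ j (R₁ w * R₂ w))} with hS₃
  have i12 : S₂ = (fun j => s • j) '' S₁ := by
    ext j
    constructor
    · intro hj
      refine ⟨s⁻¹ • j, ?_, smul_inv_smul s j⟩
      intro hq
      apply hj
      refine hq.congr ?_
      intro w hw
      have := e1 (s⁻¹ • j) w hw
      rw [smul_inv_smul] at this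
      exact this.symm
    · rintro ⟨k, hk, rfl⟩
      intro hq
      exact hk (hq.congr (fun w hw => e1 k w hw))
  have i23 : S₃ = (fun j => t • j) '' S₂ := by
    ext j
    constructor
    · intro hj
      refine ⟨t⁻¹ • j, ?_, smul_inv_smul t j⟩
      intro hq
      apply hj
      refine hq.congr ?_
      intro w hw
      have := e2 (t⁻¹ • j) w hw
      rw [smul_inv_smul] at this
      exact this.symm
    · rintro ⟨k, hk, rfl⟩
      intro hq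
      exact hk (hq.congr (fun w hw => e2 k w hw))
  have c12 : S₂.ncard = S₁.ncard := by
    rw [i12]
    exact Set.ncard_image_of_injective _ (MulAction.injective s)
  have c23 : S₃.ncard = S₂.ncard := by
    rw [i23]
    exact Set.ncard_image_of_injective _ (MulAction.injective t)
  have d1 : ∀ j ∈ S₁, j ∉ S₂ ∧ j ∈ S₃ := by
    intro j hj
    obtain ⟨h1, h2⟩ := 𝓢.half R₁ R₂ hc K hK hK2 j hj
    refine ⟨fun h => h h1, fun hq => hj (hq.congr h2)⟩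
  have d2 : ∀ j ∈ S₂, j ∈ S₃ := by
    intro j hj
    obtain ⟨-, h2⟩ := 𝓢.half R₂ R₁ (fun a b => (hc b a).symm) K hK2 hK j hj
    intro hq
    refine hj (hq.congr (fun w hw => ?_))
    rw [(hc w w).eq]
    exact h2 w hw
  have hdisj : Disjoint S₁ S₂ := by
    rw [Set.disjoint_left]
    intro j hj
    exact (d1 j hj).1
  have hsub : S₁ ∪ S₂ ⊆ S₃ := by
    rintro j (hj | hj)
    · exact (d1 j hj).2
    · exact d2 j hj
  have hcard : S₁.ncard + S₂.ncard ≤ S₃.ncard := by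
    rw [← Set.ncard_union_eq hdisj (Set.toFinite _) (Set.toFinite _)]
    exact Set.ncard_le_ncard hsub (Set.toFinite _)
  have hz : S₁.ncard = 0 := by omega
  have hempty : S₁ = ∅ := (Set.ncard_eq_zero (Set.toFinite _)).1 hz
  have hi : i ∉ S₁ := by
    rw [hempty]
    exact Set.notMem_empty i
  by_contra hcon
  exact hi hcon

end Pool.Agent.TVX
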