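import Pool.Agent.TVX.L1
import Pool.Agent.TVX.H6

/-!
# [TVX-L2] the length system of a finite index subgroup acting on a hyperbolic space

`H ≤ G` of finite index acts isometrically on `Y` (four point condition with `δ`), `y : Y`.
`I = G ⧸ H`, `M = H.normalCore`. For `i : G ⧸ H` let `a = Quotient.out i`. For `h ∈ M`:
`a⁻¹ h a ∈ M ≤ H`. Put `τ i h = stl (⟨a⁻¹ h a, _⟩ : H) y` if `a⁻¹ * h * a ∈ H`, else `0`.
* `nonneg`: `stl_nonneg`; `pow`: `stl_pow` (`(a⁻¹ h a)^k = a⁻¹ h^k a`); `comm`: `stl_mul_le`.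
* `conj`: let `a' = out (g • i)`; `a' = g a b` with `b ∈ H` (`QuotientGroup.eq`,
  `Quotient.out_eq'`), so `a'⁻¹ (g h g⁻¹) a' = b⁻¹ (a⁻¹ h a) b` and `stl_conj` (in the group `H`).
* `central`: `C' := {c' : H | ∃ c ∈ C, c' = a⁻¹ c a}` = `(C.map (MulAut.conj a⁻¹)).subgroupOf H`
  (every `a⁻¹ c a` is in `H`). `key` for the group `H`, `g' = a⁻¹ g a` gives `f'`; put
  `f c = f' ⟨a⁻¹ c a, _⟩` if `a⁻¹ * c * a ∈ H`, else `0`.
* the last statement: for `i = 1 · H` one has `a = out i ∈ H`, and `stl_conj` in `H` again.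
-/

namespace Pool.Agent.TVX

open Classical in
/-- the length `τ i h`. -/
noncomputable def tauL {G Y : Type*} [Group G] [PseudoMetricSpace Y] (H : Subgroup G)
    [MulAction H Y] (y : Y) (i : G ⧸ H) (h : G) : ℝ :=
  if hh : (Quotient.out i)⁻¹ * h * (Quotient.out i) ∈ H then
    stl (⟨(Quotient.out i)⁻¹ * h * (Quotient.out i), hh⟩ : H) y else 0

theorem tauL_eq {G Y : Type*} [Group G] [PseudoMetricSpace Y] (H : Subgroup G)
    [MulAction H Y] (y : Y) (i : G ⧸ H) (h : G)
    (hh : (Quotient.out i)⁻¹ * h * (Quotient.out i) ∈ H) :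
    tauL H y i h = stl (⟨(Quotient.out i)⁻¹ * h * (Quotient.out i), hh⟩ : H) y := by
  unfold tauL
  rw [dif_pos hh]

theorem conj_mem_of_core {G : Type*} [Group G] (H : Subgroup G) (a : G) {h : G}
    (hh : h ∈ H.normalCore) : a⁻¹ * h * a ∈ H := by
  have h1 : a⁻¹ * h * a⁻¹⁻¹ ∈ H.normalCore := H.normalCore_normal.conj_mem _ hh a⁻¹
  rw [inv_inv] at h1
  exact H.normalCore_le h1

/-- the length `τ i h` computed with any representative of `i`. -/
theorem tauL_rep {G Y : Type*} [Group G] [PseudoMetricSpace Y] (H : Subgroup G)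
    [MulAction H Y] [IsIsometricSMul H Y] (y : Y) (a : G) {h : G} (hh : h ∈ H.normalCore) :
    tauL H y (QuotientGroup.mk a) h = stl (⟨a⁻¹ * h * a, conj_mem_of_core H a hh⟩ : H) y := by
  rw [tauL_eq H y _ h (conj_mem_of_core H _ hh)]
  set b : G := Quotient.out (QuotientGroup.mk a : G ⧸ H) with hb
  have hab : b⁻¹ * a ∈ H := by
    have h1 : (QuotientGroup.mk b : G ⧸ H) = QuotientGroup.mk a := by
      rw [hb]
      exact Quotient.out_eq' _
    exact QuotientGroup.eq.1 h1
  have h2 : (⟨b⁻¹ * h * b, conj_mem_of_core H b hh⟩ : H) =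
      (⟨b⁻¹ * a, hab⟩ : H) * ⟨a⁻¹ * h * a, conj_mem_of_core H a hh⟩ * (⟨b⁻¹ * a, hab⟩ : H)⁻¹ := by
    apply Subtype.ext
    simp only [Subgroup.coe_mul, Subgroup.coe_inv]
    group
  rw [h2]
  exact stl_conj _ _ y

theorem exists_lengthSystem {G Y : Type*} [Group G] [PseudoMetricSpace Y] (H : Subgroup G)
    [MulAction H Y] [IsIsometricSMul H Y] {δ : ℝ} (hY : FourPoint Y δ) (y : Y) :
    ∃ 𝓢 : LengthSystem G (G ⧸ H), 𝓢.M = H.normalCore ∧
      ∀ h (hh : h ∈ H.normalCore),
        𝓢.τ (QuotientGroup.mk (1 : G)) h = stl (⟨h, H.normalCore_le hh⟩ : H) y := by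
  refine ⟨{ M := H.normalCore, normal := H.normalCore_normal, τ := tauL H y, nonneg := ?_,
            pow := ?_, comm := ?_, conj := ?_, central := ?_ }, rfl, ?_⟩
  · intro i h hh
    rw [tauL_eq H y i h (conj_mem_of_core H _ hh)]
    exact stl_nonneg _ y
  · intro i h hh k
    rw [tauL_eq H y i h (conj_mem_of_core H _ hh),
      tauL_eq H y i _ (conj_mem_of_core H _ (H.normalCore.pow_mem hh k))]
    rw [← stl_pow]
    congr 1
    apply Subtype.ext
    simp only [Subgroup.coe_pow]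
    have := conj_pow (a := (Quotient.out i)⁻¹) (b := h) (i := k)
    rw [inv_inv] at this
    exact this.symm
  · intro i h hh h' hh' hcomm
    rw [tauL_eq H y i h (conj_mem_of_core H _ hh), tauL_eq H y i h' (conj_mem_of_core H _ hh'),
      tauL_eq H y i _ (conj_mem_of_core H _ (H.normalCore.mul_mem hh hh'))]
    have e : (⟨(Quotient.out i)⁻¹ * (h * h') * (Quotient.out i),
        conj_mem_of_core H _ (H.normalCore.mul_mem hh hh')⟩ : H) =
        (⟨(Quotient.out i)⁻¹ * h * (Quotient.out i), conj_mem_of_core H _ hh⟩ : H) *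
        ⟨(Quotient.out i)⁻¹ * h' * (Quotient.out i), conj_mem_of_core H _ hh'⟩ := by
      apply Subtype.ext
      simp only [Subgroup.coe_mul]
      group
    rw [e]
    apply stl_mul_le
    have e2 : (⟨(Quotient.out i)⁻¹ * (h' * h) * (Quotient.out i),
        conj_mem_of_core H _ (H.normalCore.mul_mem hh' hh)⟩ : H) =
        (⟨(Quotient.out i)⁻¹ * h' * (Quotient.out i), conj_mem_of_core H _ hh'⟩ : H) *
        ⟨(Quotient.out i)⁻¹ * h * (Quotient.out i), conj_mem_of_core H _ hh⟩ := by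
      apply Subtype.ext
      simp only [Subgroup.coe_mul]
      group
    unfold Commute SemiconjBy
    rw [← e, ← e2]
    apply Subtype.ext
    simp only
    rw [hcomm.eq]
  · intro g i h hh
    obtain ⟨a, rfl⟩ := QuotientGroup.mk_surjective i
    have h1 : g • (QuotientGroup.mk a : G ⧸ H) = QuotientGroup.mk (g * a) := rfl
    have hgh : g * h * g⁻¹ ∈ H.normalCore := H.normalCore_normal.conj_mem _ hh g
    rw [h1, tauL_rep H y (g * a) hgh, tauL_rep H y a hh]
    congr 1
    apply Subtype.ext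
    simp only
    group
  · intro i g hg hpos C hC hcomm
    rw [tauL_eq H y i g (conj_mem_of_core H _ hg)] at hpos
    set a : G := Quotient.out i with ha
    have hCa : ∀ c ∈ C, a⁻¹ * c * a ∈ H := fun c hc => conj_mem_of_core H a (hC hc)
    set C' : Subgroup H := (C.map (MulAut.conj a⁻¹).toMonoidHom).subgroupOf H with hC'
    have hmem : ∀ c : H, c ∈ C' ↔ ∃ d ∈ C, a⁻¹ * d * a = c := by
      intro c
      rw [hC', Subgroup.mem_subgroupOf, Subgroup.mem_map]
      constructor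
      · rintro ⟨d, hd, he⟩
        refine ⟨d, hd, ?_⟩
        rw [← he]
        simp [MulAut.conj_apply]
      · rintro ⟨d, hd, he⟩
        refine ⟨d, hd, ?_⟩
        rw [← he]
        simp [MulAut.conj_apply]
    obtain ⟨f', ⟨⟨D, hD⟩, hpow⟩, hfτ⟩ := key hY (⟨a⁻¹ * g * a, conj_mem_of_core H a hg⟩ : H) y
      hpos C' (by
        intro c hc
        obtain ⟨d, hd, he⟩ := (hmem c).1 hc
        unfold Commute SemiconjBy
        apply Subtype.ext
        simp only [Subgroup.coe_mul]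
        rw [← he]
        have := (hcomm d hd).eq
        calc a⁻¹ * d * a * (a⁻¹ * g * a) = a⁻¹ * (d * g) * a := by group
          _ = a⁻¹ * (g * d) * a := by rw [this]
          _ = a⁻¹ * g * a * (a⁻¹ * d * a) := by group)
    classical
    refine ⟨fun c => if hc : a⁻¹ * c * a ∈ H then f' ⟨a⁻¹ * c * a, hc⟩ else 0,
      ⟨⟨D, ?_⟩, ?_⟩, ?_⟩
    · intro c hc d hd
      simp only
      rw [dif_pos (hCa _ (C.mul_mem hc hd)), dif_pos (hCa _ hc), dif_pos (hCa _ hd)]
      have e : (⟨a⁻¹ * (c * d) * a, hCa _ (C.mul_mem hc hd)⟩ : H) =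
          ⟨a⁻¹ * c * a, hCa _ hc⟩ * ⟨a⁻¹ * d * a, hCa _ hd⟩ := by
        apply Subtype.ext
        simp only [Subgroup.coe_mul]
        group
      rw [e]
      exact hD _ ((hmem _).2 ⟨c, hc, rfl⟩) _ ((hmem _).2 ⟨d, hd, rfl⟩)
    · intro c hc k
      simp only
      rw [dif_pos (hCa _ (C.pow_mem hc k)), dif_pos (hCa _ hc)]
      have e : (⟨a⁻¹ * (c ^ k) * a, hCa _ (C.pow_mem hc k)⟩ : H) =
          ⟨a⁻¹ * c * a, hCa _ hc⟩ ^ k := by
        apply Subtype.ext
        simp only [Subgroup.coe_pow]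
        have := conj_pow (a := a⁻¹) (b := c) (i := k)
        rw [inv_inv] at this
        exact this.symm
      rw [e]
      exact hpow _ ((hmem _).2 ⟨c, hc, rfl⟩) k
    · intro c hc
      simp only
      rw [dif_pos (hCa _ hc), tauL_eq H y i c (hCa _ hc)]
      exact hfτ _ ((hmem _).2 ⟨c, hc, rfl⟩)
  · intro h hh
    simp only
    rw [tauL_rep H y 1 hh]
    congr 1
    apply Subtype.ext
    simp

end Pool.Agent.TVX
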