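import Pool.Agent.TVX.Defs

/-!
# [TVX-Q2] homogeneous quasimorphisms: basic facts and the sign lemma

`f 1 = 0`: homogeneity with `k = 0`. `f a⁻¹ = - f a`: `k |f a + f a⁻¹| = |f (a^k) + f (a⁻¹^k)| ≤ D + |f 1|`
for all `k`. `f (b a b⁻¹) = f a`: `k |f (b a b⁻¹) - f a| = |f (b a^k b⁻¹) - f (a^k)| ≤ 2 D + |f b| +
|f b⁻¹|` for all `k`.
`hqm_comp`: pull back along a homomorphism.
`sign`: suppose not; then there are `a, b ∈ K` with `f' a ≠ f a` and `f' b ≠ - f b`; as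
`|f'| = |f|`, `f' a = - f a ≠ 0` and `f' b = f b ≠ 0`. Replace `b` by `b⁻¹` if necessary so that
`f a` and `f b` have the same sign, and both by inverses so that `x := f a > 0`, `z := f b > 0`
(`f' a = -x`, `f' b = z`). For `k l : ℕ`: `f (a^k b^l) = k x + l z + O(D)`,
`f' (a^k b^l) = - k x + l z + O(D')`, and the absolute values agree. Take `k` huge and
`l = ⌈k x / z⌉`: `|f' (…)| ≤ z + D'`, `f (…) ≥ 2 k x - D`: contradiction.
-/

namespace Pool.Agent.TVX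

variable {G : Type*} [Group G] {K : Subgroup G} {f f' : G → ℝ}

private theorem Q2_zero_of {t M : ℝ} (h : ∀ k : ℕ, (k : ℝ) * |t| ≤ M) : t = 0 := by
  by_contra ht
  have hpos : 0 < |t| := abs_pos.2 ht
  obtain ⟨k, hk⟩ := exists_nat_gt (M / |t|)
  have h1 := h k
  rw [div_lt_iff₀ hpos] at hk
  linarith

theorem HQM.map_one (hf : HQM K f) : f 1 = 0 := by
  have h := hf.2 1 K.one_mem 0
  simpa using h

theorem HQM.map_inv (hf : HQM K f) {a : G} (ha : a ∈ K) : f a⁻¹ = - f a := by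
  have h1 := hf.map_one
  obtain ⟨⟨D, hD⟩, hp⟩ := hf
  have h0 : f a + f a⁻¹ = 0 := by
    apply Q2_zero_of (M := D)
    intro k
    have e1 := hp a ha k
    have e2 := hp a⁻¹ (K.inv_mem ha) k
    have e3 := hD (a ^ k) (K.pow_mem ha k) (a⁻¹ ^ k) (K.pow_mem (K.inv_mem ha) k)
    have e4 : a ^ k * a⁻¹ ^ k = 1 := by
      rw [inv_pow, mul_inv_cancel]
    rw [e4, h1, e1, e2] at e3
    have e5 : (k : ℝ) * |f a + f a⁻¹| = |0 - k * f a - k * f a⁻¹| := by
      have e6 : (0 : ℝ) - k * f a - k * f a⁻¹ = -(k * (f a + f a⁻¹)) := by ring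
      rw [e6, abs_neg, abs_mul, Nat.abs_cast]
    rw [e5]
    exact e3
  linarith

theorem HQM.conj (hf : HQM K f) {a b : G} (ha : a ∈ K) (hb : b ∈ K) : f (b * a * b⁻¹) = f a := by
  obtain ⟨⟨D, hD⟩, hp⟩ := hf
  have h0 : f (b * a * b⁻¹) - f a = 0 := by
    apply Q2_zero_of (M := 2 * D + |f b| + |f b⁻¹|)
    intro k
    have hbi := K.inv_mem hb
    have hak := K.pow_mem ha k
    have e1 := hp a ha k
    have e2 := hp (b * a * b⁻¹) (K.mul_mem (K.mul_mem hb ha) hbi) k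
    have e3 := hD b hb (a ^ k) hak
    have e4 := hD (b * a ^ k) (K.mul_mem hb hak) b⁻¹ hbi
    rw [conj_pow] at e2
    have e5 : (k : ℝ) * |f (b * a * b⁻¹) - f a| = |f (b * a ^ k * b⁻¹) - f (a ^ k)| := by
      rw [e1, e2, ← mul_sub, abs_mul, Nat.abs_cast]
    rw [e5]
    rw [abs_le] at e3 e4 ⊢
    have b1 := le_abs_self (f b)
    have b2 := neg_abs_le (f b)
    have b3 := le_abs_self (f b⁻¹)
    have b4 := neg_abs_le (f b⁻¹)
    constructor
    · linarith [e3.1, e4.1]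
    · linarith [e3.2, e4.2]
  linarith

theorem hqm_comp {G' : Type*} [Group G'] {C : Subgroup G} {f : G → ℝ} (hf : HQM C f)
    (φ : G' →* G) (K : Subgroup G') (hK : ∀ w ∈ K, φ w ∈ C) : HQM K (fun w => f (φ w)) := by
  obtain ⟨⟨D, hD⟩, hp⟩ := hf
  refine ⟨⟨D, fun a ha b hb => ?_⟩, fun a ha k => ?_⟩
  · have h := hD (φ a) (hK a ha) (φ b) (hK b hb)
    rw [← map_mul] at h
    exact h
  · have h := hp (φ a) (hK a ha) k
    rw [← map_pow] at h
    exact h

theorem hqm_zero (K : Subgroup G) : HQM K (fun _ => (0 : ℝ)) := by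
  refine ⟨⟨0, fun a _ b _ => ?_⟩, fun a _ k => ?_⟩
  · simp
  · simp

private theorem Q2_core (hf : HQM K f) (hf' : HQM K f') (h : ∀ a ∈ K, |f' a| = |f a|)
    {a b : G} (ha : a ∈ K) (hb : b ∈ K) {x z : ℝ} (hx : 0 < x) (hz : 0 < z) (hax : f a = x)
    (hax' : f' a = -x) (hbz : f b = z) (hbz' : f' b = z) : False := by
  obtain ⟨⟨D, hD⟩, hp⟩ := hf
  obtain ⟨⟨D', hD'⟩, hp'⟩ := hf'
  obtain ⟨k, hk⟩ := exists_nat_gt ((z + D' + D) / (2 * x))
  rw [div_lt_iff₀ (by linarith)] at hk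
  obtain ⟨l, hl⟩ : ∃ l : ℕ, l = ⌈(k : ℝ) * x / z⌉₊ := ⟨_, rfl⟩
  have hkx : 0 ≤ (k : ℝ) * x := by positivity
  have l1 : (k : ℝ) * x ≤ l * z := by
    have := Nat.le_ceil ((k : ℝ) * x / z)
    rw [← hl, div_le_iff₀ hz] at this
    exact this
  have l2 : (l : ℝ) * z < k * x + z := by
    have := Nat.ceil_lt_add_one (a := (k : ℝ) * x / z) (by positivity)
    rw [← hl] at this
    have h3 := mul_lt_mul_of_pos_right this hz
    have h4 : ((k : ℝ) * x / z + 1) * z = k * x + z := by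
      field_simp
    rw [h4] at h3
    exact h3
  have hak := K.pow_mem ha k
  have hbl := K.pow_mem hb l
  have e1 := hD (a ^ k) hak (b ^ l) hbl
  have e2 := hD' (a ^ k) hak (b ^ l) hbl
  rw [hp a ha k, hp b hb l, hax, hbz, abs_le] at e1
  rw [hp' a ha k, hp' b hb l, hax', hbz', abs_le] at e2
  have e3 := h (a ^ k * b ^ l) (K.mul_mem hak hbl)
  have e4 : 2 * (k * x) - D ≤ |f (a ^ k * b ^ l)| := by
    refine le_trans ?_ (le_abs_self _)
    linarith [e1.1]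
  have e5 : |f' (a ^ k * b ^ l)| ≤ z + D' := by
    rw [abs_le]
    constructor
    · linarith [e2.1]
    · linarith [e2.2]
  rw [e3] at e5
  linarith

theorem sign (hf : HQM K f) (hf' : HQM K f') (h : ∀ a ∈ K, |f' a| = |f a|) :
    (∀ a ∈ K, f' a = f a) ∨ ∀ a ∈ K, f' a = - f a := by
  by_contra hcon
  rw [not_or] at hcon
  obtain ⟨h1, h2⟩ := hcon
  simp only [not_forall] at h1 h2
  obtain ⟨a, ha, hna⟩ := h1
  obtain ⟨b, hb, hnb⟩ := h2
  have ea : f' a = - f a := by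
    rcases abs_eq_abs.1 (h a ha) with h3 | h3
    · exact absurd h3 hna
    · exact h3
  have eb : f' b = f b := by
    rcases abs_eq_abs.1 (h b hb) with h3 | h3
    · exact h3
    · exact absurd h3 hnb
  have ha0 : f a ≠ 0 := by
    intro h0
    apply hna
    rw [ea, h0, neg_zero]
  have hb0 : f b ≠ 0 := by
    intro h0
    apply hnb
    rw [eb, h0, neg_zero]
  have A : ∃ a' ∈ K, 0 < f a' ∧ f' a' = - f a' := by
    rcases lt_or_gt_of_ne ha0 with h3 | h3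
    · refine ⟨a⁻¹, K.inv_mem ha, ?_, ?_⟩
      · rw [hf.map_inv ha]
        linarith
      · rw [hf.map_inv ha, hf'.map_inv ha, ea]
    · exact ⟨a, ha, h3, ea⟩
  have B : ∃ b' ∈ K, 0 < f b' ∧ f' b' = f b' := by
    rcases lt_or_gt_of_ne hb0 with h3 | h3
    · refine ⟨b⁻¹, K.inv_mem hb, ?_, ?_⟩
      · rw [hf.map_inv hb]
        linarith
      · rw [hf.map_inv hb, hf'.map_inv hb, eb]
    · exact ⟨b, hb, h3, eb⟩
  obtain ⟨a', ha', pa, qa⟩ := A
  obtain ⟨b', hb', pb, qb⟩ := B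
  exact Q2_core hf hf' h ha' hb' pa pb rfl qa rfl qb

end Pool.Agent.TVX
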