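import Pool.Agent.TVX.Z5

/-!
# [TVX] the predicates of the final statement
-/

namespace Pool.Agent.TVX

universe u v w

/-- `γ` is a power of (the class of) a shear. -/
def IsShearPower (n : ℕ) (Γ : Subgroup (OutF n)) (γ : Γ) : Prop :=
  ∃ (g : AutF n) (N : ℕ), IsShear n g ∧ (γ : OutF n) = toOut n g ^ N

/-- The elements of `Γ` that are classes of automorphisms `a ∘ s ∘ a⁻¹`, where `s` is a map
`x_i ↦ x_i u` (all other generators fixed) and `u` is a word in the `x_j`, `j ∈ J`. -/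
def shearSet (n : ℕ) (Γ : Subgroup (OutF n)) (a : AutF n) (i : Fin n) (J : Finset (Fin n)) :
    Set Γ :=
  {γ : Γ | ∃ g : AutF n, IsShearAt n i J (a⁻¹ * g * a) ∧ toOut n g = γ}

/-- `t` is the transvection `x_i ↦ x_i x_j`. -/
def IsTransvection (n : ℕ) (t : AutF n) : Prop :=
  ∃ i j : Fin n, i ≠ j ∧ t (FreeGroup.of i) = FreeGroup.of i * FreeGroup.of j ∧
    ∀ l : Fin n, l ≠ i → t (FreeGroup.of l) = FreeGroup.of l

/-- In every isometric action of `Γ` on a Gromov hyperbolic space no power of a shear is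
loxodromic. -/
def ShearsNeverLoxodromic (n : ℕ) (Γ : Subgroup (OutF n)) : Prop :=
  ∀ (Y : Type u) [PseudoMetricSpace Y] [MulAction Γ Y] [IsIsometricSMul Γ Y],
    GromovHyperbolic Y → ∀ γ : Γ, IsShearPower n Γ γ → ∀ y : Y, ¬ LoxodromicAt γ y

theorem isShear_of_isTransvection (n : ℕ) (hn : 5 ≤ n) (g : AutF n) (h : IsTransvection n g) :
    IsShear n g := by
  obtain ⟨i, j, hij, hgi, hgl⟩ := h
  refine ⟨1, i, {j}, ?_, ?_, FreeGroup.of j, ?_, ?_, ?_⟩
  · simpa using hij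
  · simp only [Finset.card_singleton]; omega
  · exact Subgroup.subset_closure ⟨j, by simp, rfl⟩
  · simpa using hgi
  · intro l hl
    simpa using hgl l hl

theorem shearsNeverLoxodromic (n : ℕ) (Γ : Subgroup (OutF n)) (hΓ : Γ.FiniteIndex) :
    ShearsNeverLoxodromic.{u} n Γ := by
  intro Y _ _ _ hY γ hγ y
  obtain ⟨g, N, hg, hN⟩ := hγ
  have hmem : toOut n g ^ N ∈ Γ := hN ▸ γ.2
  have h := not_lox n (toOut n) Γ hΓ hY g hg N hmem y
  have e : (⟨toOut n g ^ N, hmem⟩ : Γ) = γ := Subtype.ext hN.symm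
  rwa [e] at h

theorem shears_finOrder (n : ℕ) (Γ : Subgroup (OutF n)) (hΓ : Γ.FiniteIndex)
    (G : Type v) [Group G] (hG : DetectedByHyperbolicSpaces.{v, w} G) (φ : Γ →* G) (γ : Γ)
    (hγ : IsShearPower n Γ γ) : IsOfFinOrder (φ γ) := by
  obtain ⟨g, N, hg, hN⟩ := hγ
  have hmem : toOut n g ^ N ∈ Γ := hN ▸ γ.2
  have h := finOrder n (toOut n) Γ hΓ G hG φ g hg N hmem
  have e : (⟨toOut n g ^ N, hmem⟩ : Γ) = γ := Subtype.ext hN.symm
  rwa [e] at h

end Pool.Agent.TVX
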