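import Pool.Agent.TVX.Defs

/-!
# [TVX-Z1] automorphisms of `FreeGroup (Fin 2 ⊕ β)`

Write `x₀ = of (inl 0)`, `x₁ = of (inl 1)`, `ι = FreeGroup.map Sum.inr : FreeGroup β →* _`.
* `R₁ w`: `x₀ ↦ x₀ ι(w)`, all other generators fixed; `R₂ w`: `x₁ ↦ x₁ ι(w)`, others fixed.
  `R₁ (w w') = R₁ w * R₁ w'`: `(R₁ w (R₁ w' x₀)) = R₁ w (x₀ ι w') = x₀ ι(w) ι(w')` since `R₁ w`
  fixes `ι(w')`. (Inverse of `R₁ w` is `R₁ w⁻¹`.) `R₁ w` and `R₂ w'` commute.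
* `s` exchanges `x₀` and `x₁` and fixes the other generators: `s R₁(w) s⁻¹ = R₂(w)`.
* `t`: `x₀ ↦ x₀ x₁⁻¹`, others fixed: `t⁻¹ x₀ = x₀ x₁`, and
  `(t R₂(w) t⁻¹) x₀ = t (R₂(w) (x₀ x₁)) = t (x₀ x₁ ι w) = x₀ x₁⁻¹ x₁ ι w = x₀ ι w`,
  `(t R₂(w) t⁻¹) x₁ = x₁ ι w`: `t R₂(w) t⁻¹ = R₁(w) R₂(w)`.
* `e α` for `α : MulAut (FreeGroup β)`: fixes `x₀, x₁`, and `e α (ι w) = ι (α w)`; it is a
  homomorphism in `α`, and `e α R₁(w) (e α)⁻¹ = R₁(α w)`.
All identities are checked on the generators (`MulEquiv.ext`, `FreeGroup.ext_hom`).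
-/

namespace Pool.Agent.TVX

/-- the endomorphism with prescribed values on the generators -/
private def z1End {β : Type*} (a b : FreeGroup (Fin 2 ⊕ β))
    (φ : FreeGroup β →* FreeGroup (Fin 2 ⊕ β)) :
    FreeGroup (Fin 2 ⊕ β) →* FreeGroup (Fin 2 ⊕ β) :=
  FreeGroup.lift (Sum.elim ![a, b] fun l => φ (FreeGroup.of l))

private theorem z1End_zero {β : Type*} (a b : FreeGroup (Fin 2 ⊕ β))
    (φ : FreeGroup β →* FreeGroup (Fin 2 ⊕ β)) :
    z1End a b φ (FreeGroup.of (Sum.inl 0)) = a := by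
  rw [z1End, FreeGroup.lift_apply_of]
  rfl

private theorem z1End_one {β : Type*} (a b : FreeGroup (Fin 2 ⊕ β))
    (φ : FreeGroup β →* FreeGroup (Fin 2 ⊕ β)) :
    z1End a b φ (FreeGroup.of (Sum.inl 1)) = b := by
  rw [z1End, FreeGroup.lift_apply_of]
  rfl

private theorem z1End_inr {β : Type*} (a b : FreeGroup (Fin 2 ⊕ β))
    (φ : FreeGroup β →* FreeGroup (Fin 2 ⊕ β)) (l : β) :
    z1End a b φ (FreeGroup.of (Sum.inr l)) = φ (FreeGroup.of l) := by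
  rw [z1End, FreeGroup.lift_apply_of]
  rfl

private theorem z1End_map {β : Type*} (a b : FreeGroup (Fin 2 ⊕ β))
    (φ : FreeGroup β →* FreeGroup (Fin 2 ⊕ β)) (w : FreeGroup β) :
    z1End a b φ (FreeGroup.map Sum.inr w) = φ w := by
  have h : (z1End a b φ).comp (FreeGroup.map Sum.inr) = φ := by
    refine FreeGroup.ext_hom _ _ fun l => ?_
    rw [MonoidHom.comp_apply, FreeGroup.map.of, z1End_inr]
  exact DFunLike.congr_fun h w

private theorem z1_homExt {β : Type*} {f g : FreeGroup (Fin 2 ⊕ β) →* FreeGroup (Fin 2 ⊕ β)}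
    (h0 : f (FreeGroup.of (Sum.inl 0)) = g (FreeGroup.of (Sum.inl 0)))
    (h1 : f (FreeGroup.of (Sum.inl 1)) = g (FreeGroup.of (Sum.inl 1)))
    (h2 : ∀ l, f (FreeGroup.of (Sum.inr l)) = g (FreeGroup.of (Sum.inr l))) : f = g := by
  refine FreeGroup.ext_hom _ _ fun i => ?_
  rcases i with i | l
  · fin_cases i
    · exact h0
    · exact h1
  · exact h2 l

private theorem z1_ext {β : Type*} {f g : MulAut (FreeGroup (Fin 2 ⊕ β))}
    (h0 : f (FreeGroup.of (Sum.inl 0)) = g (FreeGroup.of (Sum.inl 0)))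
    (h1 : f (FreeGroup.of (Sum.inl 1)) = g (FreeGroup.of (Sum.inl 1)))
    (h2 : ∀ l, f (FreeGroup.of (Sum.inr l)) = g (FreeGroup.of (Sum.inr l))) : f = g := by
  have h : (f : FreeGroup (Fin 2 ⊕ β) →* FreeGroup (Fin 2 ⊕ β)) =
      (g : FreeGroup (Fin 2 ⊕ β) →* FreeGroup (Fin 2 ⊕ β)) := z1_homExt h0 h1 h2
  exact MulEquiv.ext fun x => DFunLike.congr_fun h x

/-- an automorphism from two inverse endomorphisms -/
private def z1Aut {β : Type*} (a b a' b' : FreeGroup (Fin 2 ⊕ β))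
    (φ φ' : FreeGroup β →* FreeGroup (Fin 2 ⊕ β))
    (h : z1End a' b' φ' a = FreeGroup.of (Sum.inl 0) ∧
      z1End a' b' φ' b = FreeGroup.of (Sum.inl 1) ∧
      ∀ l, z1End a' b' φ' (φ (FreeGroup.of l)) = FreeGroup.of (Sum.inr l))
    (h' : z1End a b φ a' = FreeGroup.of (Sum.inl 0) ∧
      z1End a b φ b' = FreeGroup.of (Sum.inl 1) ∧
      ∀ l, z1End a b φ (φ' (FreeGroup.of l)) = FreeGroup.of (Sum.inr l)) :
    MulAut (FreeGroup (Fin 2 ⊕ β)) :=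
  MonoidHom.toMulEquiv (z1End a b φ) (z1End a' b' φ')
    (z1_homExt (by rw [MonoidHom.comp_apply, z1End_zero]; exact h.1)
      (by rw [MonoidHom.comp_apply, z1End_one]; exact h.2.1)
      (fun l => by rw [MonoidHom.comp_apply, z1End_inr]; exact h.2.2 l))
    (z1_homExt (by rw [MonoidHom.comp_apply, z1End_zero]; exact h'.1)
      (by rw [MonoidHom.comp_apply, z1End_one]; exact h'.2.1)
      (fun l => by rw [MonoidHom.comp_apply, z1End_inr]; exact h'.2.2 l))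

private theorem z1Aut_apply {β : Type*} (a b a' b' : FreeGroup (Fin 2 ⊕ β))
    (φ φ' : FreeGroup β →* FreeGroup (Fin 2 ⊕ β)) (h h') (x : FreeGroup (Fin 2 ⊕ β)) :
    z1Aut a b a' b' φ φ' h h' x = z1End a b φ x := rfl

theorem exists_automorphisms (β : Type*) :
    ∃ (R₁ R₂ : FreeGroup β →* MulAut (FreeGroup (Fin 2 ⊕ β)))
      (s t : MulAut (FreeGroup (Fin 2 ⊕ β)))
      (e : MulAut (FreeGroup β) →* MulAut (FreeGroup (Fin 2 ⊕ β))),
      (∀ w, R₁ w (FreeGroup.of (Sum.inl 0)) =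
          FreeGroup.of (Sum.inl 0) * FreeGroup.map Sum.inr w ∧
        R₁ w (FreeGroup.of (Sum.inl 1)) = FreeGroup.of (Sum.inl 1) ∧
        ∀ l, R₁ w (FreeGroup.of (Sum.inr l)) = FreeGroup.of (Sum.inr l)) ∧
      (∀ w, s * R₁ w * s⁻¹ = R₂ w) ∧
      (∀ w, t * R₂ w * t⁻¹ = R₁ w * R₂ w) ∧
      (∀ w w', Commute (R₁ w) (R₂ w')) ∧
      (∀ α w, e α * R₁ w * (e α)⁻¹ = R₁ (α w)) := by
  set x0 : FreeGroup (Fin 2 ⊕ β) := FreeGroup.of (Sum.inl 0) with hx0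
  set x1 : FreeGroup (Fin 2 ⊕ β) := FreeGroup.of (Sum.inl 1) with hx1
  set ι : FreeGroup β →* FreeGroup (Fin 2 ⊕ β) := FreeGroup.map Sum.inr with hι
  have hι1 : ∀ l, ι (FreeGroup.of l) = FreeGroup.of (Sum.inr l) := fun l => FreeGroup.map.of
  have hι2 : ∀ l : β, (FreeGroup.of (Sum.inr l) : FreeGroup (Fin 2 ⊕ β)) = ι (FreeGroup.of l) :=
    fun l => (hι1 l).symm
  have e0 : ∀ (a b : FreeGroup (Fin 2 ⊕ β)) φ, z1End a b φ x0 = a := z1End_zero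
  have e1 : ∀ (a b : FreeGroup (Fin 2 ⊕ β)) φ, z1End a b φ x1 = b := z1End_one
  have e2 : ∀ (a b : FreeGroup (Fin 2 ⊕ β)) φ w, z1End a b φ (ι w) = φ w := z1End_map
  have r1 : ∀ w w' : FreeGroup β, z1End (x0 * ι w) x1 ι (x0 * ι w') = x0 * (ι w * ι w') :=
    fun w w' => by rw [map_mul, e0, e2, mul_assoc]
  have r2 : ∀ w w' : FreeGroup β, z1End x0 (x1 * ι w) ι (x1 * ι w') = x1 * (ι w * ι w') :=
    fun w w' => by rw [map_mul, e1, e2, mul_assoc]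
  let R₁ : FreeGroup β →* MulAut (FreeGroup (Fin 2 ⊕ β)) := MonoidHom.mk'
    (fun w => z1Aut (x0 * ι w) x1 (x0 * ι w⁻¹) x1 ι ι
      ⟨by rw [r1, ← map_mul, inv_mul_cancel, map_one, mul_one], e1 _ _ _,
        fun l => by rw [e2, hι1]⟩
      ⟨by rw [r1, ← map_mul, mul_inv_cancel, map_one, mul_one], e1 _ _ _,
        fun l => by rw [e2, hι1]⟩) (by
    intro w w'
    refine z1_ext ?_ ?_ fun l => ?_
    · rw [MulAut.mul_apply, z1Aut_apply, z1Aut_apply, z1Aut_apply, ← hx0, e0, e0, r1, map_mul]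
    · rw [MulAut.mul_apply, z1Aut_apply, z1Aut_apply, z1Aut_apply, ← hx1, e1, e1, e1]
    · rw [MulAut.mul_apply, z1Aut_apply, z1Aut_apply, z1Aut_apply, hι2, e2, e2, e2])
  let R₂ : FreeGroup β →* MulAut (FreeGroup (Fin 2 ⊕ β)) := MonoidHom.mk'
    (fun w => z1Aut x0 (x1 * ι w) x0 (x1 * ι w⁻¹) ι ι
      ⟨e0 _ _ _, by rw [r2, ← map_mul, inv_mul_cancel, map_one, mul_one],
        fun l => by rw [e2, hι1]⟩
      ⟨e0 _ _ _, by rw [r2, ← map_mul, mul_inv_cancel, map_one, mul_one],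
        fun l => by rw [e2, hι1]⟩) (by
    intro w w'
    refine z1_ext ?_ ?_ fun l => ?_
    · rw [MulAut.mul_apply, z1Aut_apply, z1Aut_apply, z1Aut_apply, ← hx0, e0, e0, e0]
    · rw [MulAut.mul_apply, z1Aut_apply, z1Aut_apply, z1Aut_apply, ← hx1, e1, e1, r2, map_mul]
    · rw [MulAut.mul_apply, z1Aut_apply, z1Aut_apply, z1Aut_apply, hι2, e2, e2, e2])
  let s : MulAut (FreeGroup (Fin 2 ⊕ β)) := z1Aut x1 x0 x1 x0 ι ι
    ⟨e1 _ _ _, e0 _ _ _, fun l => by rw [e2, hι1]⟩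
    ⟨e1 _ _ _, e0 _ _ _, fun l => by rw [e2, hι1]⟩
  let t : MulAut (FreeGroup (Fin 2 ⊕ β)) := z1Aut (x0 * x1⁻¹) x1 (x0 * x1) x1 ι ι
    ⟨by rw [map_mul, map_inv, e0, e1, mul_inv_cancel_right], e1 _ _ _,
      fun l => by rw [e2, hι1]⟩
    ⟨by rw [map_mul, e0, e1, inv_mul_cancel_right], e1 _ _ _,
      fun l => by rw [e2, hι1]⟩
  let e : MulAut (FreeGroup β) →* MulAut (FreeGroup (Fin 2 ⊕ β)) := MonoidHom.mk'
    (fun α => z1Aut x0 x1 x0 x1 (ι.comp α.toMonoidHom) (ι.comp (α⁻¹).toMonoidHom)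
      ⟨e0 _ _ _, e1 _ _ _, fun l => by
        rw [MonoidHom.comp_apply, e2, MonoidHom.comp_apply, ← hι1]
        congr 1
        exact MulAut.inv_apply_self _ α _⟩
      ⟨e0 _ _ _, e1 _ _ _, fun l => by
        rw [MonoidHom.comp_apply, e2, MonoidHom.comp_apply, ← hι1]
        congr 1
        exact MulAut.apply_inv_self _ α _⟩) (by
    intro α α'
    refine z1_ext ?_ ?_ fun l => ?_
    · rw [MulAut.mul_apply, z1Aut_apply, z1Aut_apply, z1Aut_apply, ← hx0, e0, e0, e0]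
    · rw [MulAut.mul_apply, z1Aut_apply, z1Aut_apply, z1Aut_apply, ← hx1, e1, e1, e1]
    · rw [MulAut.mul_apply, z1Aut_apply, z1Aut_apply, z1Aut_apply, hι2, e2, e2,
        MonoidHom.comp_apply, MonoidHom.comp_apply, e2, MonoidHom.comp_apply]
      rfl)
  have hR₁ : ∀ w x, R₁ w x = z1End (x0 * ι w) x1 ι x := fun _ _ => rfl
  have hR₂ : ∀ w x, R₂ w x = z1End x0 (x1 * ι w) ι x := fun _ _ => rfl
  have hs : ∀ x, s x = z1End x1 x0 ι x := fun _ => rfl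
  have ht : ∀ x, t x = z1End (x0 * x1⁻¹) x1 ι x := fun _ => rfl
  have he : ∀ α x, e α x = z1End x0 x1 (ι.comp α.toMonoidHom) x := fun _ _ => rfl
  refine ⟨R₁, R₂, s, t, e, fun w => ⟨?_, ?_, fun l => ?_⟩, fun w => ?_, fun w => ?_,
    fun w w' => ?_, fun α w => ?_⟩
  · rw [hR₁, e0]
  · rw [hR₁, e1]
  · rw [hR₁, hι2, e2]
  · rw [mul_inv_eq_iff_eq_mul]
    refine z1_ext ?_ ?_ fun l => ?_
    · rw [MulAut.mul_apply, MulAut.mul_apply, ← hx0, hR₁, hs, hs, hR₂, e0, e0, e1, map_mul, e0,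
        e2]
    · rw [MulAut.mul_apply, MulAut.mul_apply, ← hx1, hR₁, hs, hs, hR₂, e1, e1, e0]
    · rw [MulAut.mul_apply, MulAut.mul_apply, hι2, hR₁, hs, hs, hR₂, e2, e2, e2]
  · rw [mul_inv_eq_iff_eq_mul]
    refine z1_ext ?_ ?_ fun l => ?_
    · simp only [MulAut.mul_apply, ← hx0, hR₂, ht, hR₁, e0, e1, e2, map_mul, map_inv]
      group
    · simp only [MulAut.mul_apply, ← hx1, hR₂, ht, hR₁, e1, e2, map_mul]
    · simp only [MulAut.mul_apply, hι2, hR₂, ht, hR₁, e2]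
  · refine z1_ext ?_ ?_ fun l => ?_
    · simp only [MulAut.mul_apply, ← hx0, hR₂, hR₁, e0, e2, map_mul]
    · simp only [MulAut.mul_apply, ← hx1, hR₂, hR₁, e1, e2, map_mul]
    · simp only [MulAut.mul_apply, hι2, hR₂, hR₁, e2]
  · rw [mul_inv_eq_iff_eq_mul]
    refine z1_ext ?_ ?_ fun l => ?_
    · rw [MulAut.mul_apply, MulAut.mul_apply, ← hx0, hR₁, hR₁, he, he, e0, e0, e0, map_mul, e0,
        e2]
      rfl
    · rw [MulAut.mul_apply, MulAut.mul_apply, ← hx1, hR₁, hR₁, he, he, e1, e1, e1]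
    · rw [MulAut.mul_apply, MulAut.mul_apply, hι2, hR₁, hR₁, he, he, e2, e2,
        MonoidHom.comp_apply, e2]

end Pool.Agent.TVX
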