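import Pool.Agent.TVX.Z1
import Pool.Agent.TVX.L2
import Pool.Agent.TVX.A5

/-!
# [TVX-Z2] the theorem for the model `FreeGroup (Fin 2 ⊕ β)`
-/

namespace Pool.Agent.TVX

theorem model {β : Type*} [DecidableEq β] {Y : Type*} [PseudoMetricSpace Y]
    (H : Subgroup (MulAut (FreeGroup (Fin 2 ⊕ β)))) (hH : H.FiniteIndex)
    [MulAction H Y] [IsIsometricSMul H Y] (hY : GromovHyperbolic Y)
    (j k : β) (hjk : j ≠ k) (u : FreeGroup β)
    (hu : u ∈ Subgroup.closure (FreeGroup.of '' {l : β | l ≠ j ∧ l ≠ k}))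
    (g : MulAut (FreeGroup (Fin 2 ⊕ β)))
    (hg0 : g (FreeGroup.of (Sum.inl 0)) = FreeGroup.of (Sum.inl 0) * FreeGroup.map Sum.inr u)
    (hg1 : g (FreeGroup.of (Sum.inl 1)) = FreeGroup.of (Sum.inl 1))
    (hgl : ∀ l, g (FreeGroup.of (Sum.inr l)) = FreeGroup.of (Sum.inr l))
    (N : ℕ) (hN : g ^ N ∈ H) (y : Y) : stl (⟨g ^ N, hN⟩ : H) y = 0 := by
  classical
  obtain ⟨δ, hδ⟩ := hY
  obtain ⟨𝓢, hM, hτ⟩ := exists_lengthSystem H hδ y
  obtain ⟨R₁, R₂, s, t, e, hR, hs, ht, hc, he⟩ := exists_automorphisms β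
  -- `g = R₁ u`
  have hgR : g = R₁ u := by
    apply MulEquiv.toMonoidHom_injective
    apply FreeGroup.ext_hom
    intro x
    rcases x with x | x
    · fin_cases x
      · simpa using hg0.trans (hR u).1.symm
      · simpa using hg1.trans (hR u).2.1.symm
    · simpa using (hgl x).trans ((hR u).2.2 x).symm
  subst hgR
  have := hH
  have hnc : H.normalCore.FiniteIndex := inferInstance
  have hMf : 𝓢.M.FiniteIndex := by rw [hM]; exact hnc
  have hMn : 𝓢.M.Normal := 𝓢.normal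
  set K : Subgroup (FreeGroup β) := 𝓢.M.comap R₁ with hK
  have hKn : K.Normal := hMn.comap R₁
  have hKf : K.FiniteIndex := by
    refine ⟨?_⟩
    rw [hK, Subgroup.index_comap]
    exact fun h0 => hMf.index_ne_zero (Nat.eq_zero_of_zero_dvd
      (h0 ▸ 𝓢.M.relIndex_dvd_index_of_normal R₁.range))
  have hKmem : ∀ w, w ∈ K ↔ R₁ w ∈ 𝓢.M := fun w => Iff.rfl
  have hKc : ∀ (α : MulAut (FreeGroup β)), ∀ w ∈ K, α w ∈ K := by
    intro α w hw
    rw [hKmem] at hw ⊢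
    rw [← he]
    exact hMn.conj_mem _ hw _
  have hfin : Finite (MulAut (FreeGroup (Fin 2 ⊕ β)) ⧸ H) := inferInstance
  let _ : Fintype (MulAut (FreeGroup (Fin 2 ⊕ β)) ⧸ H) := Fintype.ofFinite _
  have hf := fun i => 𝓢.exists_hqm R₁ R₂ s t hs ht hc K (fun w hw => (hKmem w).1 hw) i
  choose f hfq hfa using hf
  let act : MulAction (MulAut (FreeGroup β)) (MulAut (FreeGroup (Fin 2 ⊕ β)) ⧸ H) :=
    MulAction.compHom _ e
  have hact : ∀ (α : MulAut (FreeGroup β)) (i : MulAut (FreeGroup (Fin 2 ⊕ β)) ⧸ H),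
      α • i = e α • i := fun α i => rfl
  have hα : ∀ (α : MulAut (FreeGroup β)) (i : MulAut (FreeGroup (Fin 2 ⊕ β)) ⧸ H),
      ∀ w ∈ K, |f (α • i) (α w)| = |f i w| := by
    intro α i w hw
    rw [hfa _ _ (hKc α w hw), hfa _ _ hw, hact, ← he]
    exact 𝓢.conj (e α) i (R₁ w) hw
  -- a power of `u` in `K`
  obtain ⟨m, hm0, hm⟩ : ∃ m : ℕ, 0 < m ∧ u ^ m ∈ K := by
    obtain ⟨m, hm1, hm2, hm3⟩ := Subgroup.exists_pow_mem_of_index_ne_zero hKf.index_ne_zero u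
    exact ⟨m, hm1, hm3⟩
  have hv := vanish K hKn hKf hKc f hfq hα j k hjk (u ^ m) hm (Subgroup.pow_mem _ hu m)
    (QuotientGroup.mk (1 : MulAut (FreeGroup (Fin 2 ⊕ β))))
  have hmM : R₁ (u ^ m) ∈ H.normalCore := by
    rw [← hM]; exact hm
  have h1 : stl (⟨R₁ (u ^ m), H.normalCore_le hmM⟩ : H) y = 0 := by
    rw [← hτ _ hmM, ← hfa _ _ hm, hv, abs_zero]
  -- transfer to `g ^ N`
  have h2 : (⟨R₁ u ^ N, hN⟩ : H) ^ m = (⟨R₁ (u ^ m), H.normalCore_le hmM⟩ : H) ^ N := by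
    apply Subtype.ext
    simp only [SubmonoidClass.mk_pow, map_pow]
    rw [← pow_mul, ← pow_mul, Nat.mul_comm]
  have h3 := congrArg (fun x : H => stl x y) h2
  simp only [stl_pow] at h3
  rw [h1, mul_zero] at h3
  have hm' : (m : ℝ) ≠ 0 := by exact_mod_cast hm0.ne'
  exact (mul_eq_zero.1 h3).resolve_left hm'

end Pool.Agent.TVX
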