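import Pool.Agent.TVX.FinDefs

/-!
# [TVX-Z3] relabelling: every shear of `F_n` is a model shear

Let `i ∉ J`, `|J| + 4 ≤ n`. The complement of `J ∪ {i}` in `Fin n` has at least three elements
`a, b, c`. Let `β = {l : Fin n // l ≠ i ∧ l ≠ a}` and `θ : Fin n ≃ Fin 2 ⊕ β` with `i ↦ inl 0`,
`a ↦ inl 1`, `l ↦ inr l` otherwise; `j := b`, `k := c` (in `β`). `Φ₀ := MulAut.congr` of
`FreeGroup.freeGroupCongr θ` : `MulAut (FreeGroup (Fin n)) ≃* MulAut (FreeGroup (Fin 2 ⊕ β))`.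
If `g₀ = a'⁻¹ g a'` is `x_i ↦ x_i u`, `u ∈ closure (of '' J)`, then `Φ₀ g₀` is the model shear with
`u'`, where `u = (inclusion) u'`: `u` lies in the image of
`FreeGroup.map (Subtype.val) : FreeGroup β →* FreeGroup (Fin n)` applied to the closure of the
`of l`, `l ∈ J` (closure induction / `MonoidHom.map_closure`), and
`freeGroupCongr θ (map Subtype.val u') = map inr u'`. Let `Φ g := Φ₀ (a'⁻¹ g a')`, a group
isomorphism. Universe: `β : Type`.
-/

namespace Pool.Agent.TVX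

open scoped Classical in
/-- the relabelling. -/
noncomputable def relabel (n : ℕ) (i a : Fin n) (hia : i ≠ a) :
    Fin n ≃ Fin 2 ⊕ {l : Fin n // l ≠ i ∧ l ≠ a} where
  toFun l := if h : l = i then Sum.inl 0 else if h' : l = a then Sum.inl 1
    else Sum.inr ⟨l, h, h'⟩
  invFun s := Sum.elim (fun t => if t = 0 then i else a) Subtype.val s
  left_inv l := by
    by_cases h : l = i
    · simp [h]
    · by_cases h' : l = a
      · simp [h', Ne.symm hia]
      · simp [h, h']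
  right_inv s := by
    rcases s with t | ⟨l, h, h'⟩
    · fin_cases t
      · simp
      · simp [Ne.symm hia]
    · simp [h, h']

theorem relabel_i (n : ℕ) (i a : Fin n) (hia : i ≠ a) : relabel n i a hia i = Sum.inl 0 := by
  simp [relabel]

theorem relabel_a (n : ℕ) (i a : Fin n) (hia : i ≠ a) : relabel n i a hia a = Sum.inl 1 := by
  simp [relabel, Ne.symm hia]

theorem relabel_l (n : ℕ) (i a : Fin n) (hia : i ≠ a) (l : {l : Fin n // l ≠ i ∧ l ≠ a}) :
    relabel n i a hia l = Sum.inr l := by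
  obtain ⟨l, h, h'⟩ := l
  simp [relabel, h, h']

theorem exists_model (n : ℕ) (g : AutF n) (hg : IsShear n g) :
    ∃ (β : Type) (_ : DecidableEq β) (j k : β) (_ : j ≠ k) (u : FreeGroup β)
      (_ : u ∈ Subgroup.closure (FreeGroup.of '' {l : β | l ≠ j ∧ l ≠ k}))
      (Φ : AutF n ≃* MulAut (FreeGroup (Fin 2 ⊕ β))),
      Φ g (FreeGroup.of (Sum.inl 0)) = FreeGroup.of (Sum.inl 0) * FreeGroup.map Sum.inr u ∧
        Φ g (FreeGroup.of (Sum.inl 1)) = FreeGroup.of (Sum.inl 1) ∧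
        ∀ l, Φ g (FreeGroup.of (Sum.inr l)) = FreeGroup.of (Sum.inr l) := by
  obtain ⟨a', i, J, hiJ, hJ, u0, hu0, h1, h2⟩ := hg
  have hcard : 2 < (insert i J)ᶜ.card := by
    rw [Finset.card_compl, Finset.card_insert_of_notMem hiJ, Fintype.card_fin]
    omega
  obtain ⟨a, ha, b, hb, c, hc, hab, hac, hbc⟩ := Finset.two_lt_card.1 hcard
  simp only [Finset.mem_compl, Finset.mem_insert, not_or] at ha hb hc
  have hia : i ≠ a := fun h => ha.1 h.symm
  set θ := relabel n i a hia with hθ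
  have hθi : θ i = Sum.inl 0 := relabel_i n i a hia
  have hθa : θ a = Sum.inl 1 := relabel_a n i a hia
  have hθl : ∀ l : {l : Fin n // l ≠ i ∧ l ≠ a}, θ l = Sum.inr l := relabel_l n i a hia
  let E : FreeGroup (Fin n) ≃* FreeGroup (Fin 2 ⊕ {l : Fin n // l ≠ i ∧ l ≠ a}) :=
    FreeGroup.freeGroupCongr θ
  have hE : ∀ l, E (FreeGroup.of l) = FreeGroup.of (θ l) := by
    intro l
    simp [E]
  have hEs : ∀ l, E.symm (FreeGroup.of (θ l)) = FreeGroup.of l := by
    intro l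
    rw [← hE, MulEquiv.symm_apply_apply]
  let j : {l : Fin n // l ≠ i ∧ l ≠ a} := ⟨b, hb.1, hab.symm⟩
  let k : {l : Fin n // l ≠ i ∧ l ≠ a} := ⟨c, hc.1, hac.symm⟩
  have hjk : j ≠ k := by
    intro h
    exact hbc (congrArg Subtype.val h)
  have hu : ∃ u' ∈ Subgroup.closure (FreeGroup.of '' {l : {l : Fin n // l ≠ i ∧ l ≠ a} |
      l ≠ j ∧ l ≠ k}), E u0 = FreeGroup.map Sum.inr u' := by
    clear h1
    induction hu0 using Subgroup.closure_induction with
    | mem x hx =>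
      obtain ⟨l, hl, rfl⟩ := hx
      have hl' : l ∈ J := by simpa using hl
      have hli : l ≠ i := by
        rintro rfl
        exact hiJ hl'
      have hla : l ≠ a := by
        rintro rfl
        exact ha.2 hl'
      refine ⟨FreeGroup.of ⟨l, hli, hla⟩, Subgroup.subset_closure ⟨_, ⟨?_, ?_⟩, rfl⟩, ?_⟩
      · intro h
        have h3 : l = b := congrArg Subtype.val h
        exact hb.2 (h3 ▸ hl')
      · intro h
        have h3 : l = c := congrArg Subtype.val h
        exact hc.2 (h3 ▸ hl')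
      · rw [hE, FreeGroup.map.of, ← hθl ⟨l, hli, hla⟩]
    | one => exact ⟨1, Subgroup.one_mem _, by simp⟩
    | mul x y _ _ hx hy =>
      obtain ⟨x', hx', hxe⟩ := hx
      obtain ⟨y', hy', hye⟩ := hy
      exact ⟨x' * y', Subgroup.mul_mem _ hx' hy', by rw [map_mul, hxe, hye, map_mul]⟩
    | inv x _ hx =>
      obtain ⟨x', hx', hxe⟩ := hx
      exact ⟨x'⁻¹, Subgroup.inv_mem _ hx', by rw [map_inv, hxe, map_inv]⟩
  obtain ⟨u', hu', hue⟩ := hu
  let Φ : AutF n ≃* MulAut (FreeGroup (Fin 2 ⊕ {l : Fin n // l ≠ i ∧ l ≠ a})) :=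
    (MulAut.conj (a'⁻¹ : AutF n)).trans (MulAut.congr E)
  have hΦ : ∀ x, Φ g x = E ((a'⁻¹ * g * a') (E.symm x)) := by
    intro x
    simp [Φ, MulAut.congr]
  refine ⟨{l : Fin n // l ≠ i ∧ l ≠ a}, inferInstance, j, k, hjk, u', hu', Φ, ?_, ?_, ?_⟩
  · rw [hΦ, ← hθi, hEs, h1, map_mul, hE, hue]
  · rw [hΦ, ← hθa, hEs, h2 a hia.symm, hE]
  · intro l
    rw [hΦ, ← hθl, hEs, h2 l l.2.1, hE]

end Pool.Agent.TVX
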