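import Pool.Agent.TVX.Z2
import Pool.Agent.TVX.Z3

/-!
# [TVX-Z4] the theorem for `Aut(F_n)` and for groups onto which it maps

`not_lox`: `π : AutF n →* P` any homomorphism, `H ≤ P` of finite index acting isometrically on a
Gromov hyperbolic space `Y`. Take `Φ` from `exists_model` and let
`Ψ := π.comp Φ.symm.toMonoidHom : MulAut (FreeGroup (Fin 2 ⊕ β)) →* P`, `H' := H.comap Ψ` (finite
index). `H'` acts on `Y` through `H' →* H`, `h' ↦ ⟨Ψ h', _⟩` (`MulAction.compHom`; the action is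
isometric). Apply `model` to `H'` and `g' = Φ g`: `g'^N ∈ H'` as `Ψ (g'^N) = π g ^ N`. The powers
of `⟨g'^N, _⟩ : H'` act like the powers of `⟨(π g)^N, _⟩ : H`, so
`stl (⟨(π g)^N, hN⟩ : H) y = stl (⟨g'^N, _⟩ : H') y = 0` (unfold `stl`, `disp`), and
`loxodromicAt_iff` ends the proof.
-/

namespace Pool.Agent.TVX

theorem not_lox (n : ℕ) {P : Type*} [Group P] (π : AutF n →* P)
    {Y : Type*} [PseudoMetricSpace Y] (H : Subgroup P) (hH : H.FiniteIndex)
    [MulAction H Y] [IsIsometricSMul H Y] (hY : GromovHyperbolic Y)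
    (g : AutF n) (hg : IsShear n g) (N : ℕ) (hN : π g ^ N ∈ H) (y : Y) :
    ¬ LoxodromicAt (⟨π g ^ N, hN⟩ : H) y := by
  intro hlox
  obtain ⟨β, inst, j, k, hjk, u, hu, Φ, h0, h1, hl⟩ := exists_model n g hg
  let Ψ : MulAut (FreeGroup (Fin 2 ⊕ β)) →* P := π.comp Φ.symm.toMonoidHom
  let H' : Subgroup (MulAut (FreeGroup (Fin 2 ⊕ β))) := H.comap Ψ
  have hH' : H'.FiniteIndex := by
    haveI := hH
    exact ⟨by
      intro h0
      have h2 : (H.comap Ψ).index = 0 := h0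
      rw [Subgroup.index_comap] at h2
      exact (Subgroup.instFiniteIndex_subgroupOf H Ψ.range).index_ne_zero h2⟩
  let ρ : H' →* H :=
    { toFun := fun h => ⟨Ψ h, h.2⟩
      map_one' := by ext; simp
      map_mul' := fun a b => by ext; simp }
  letI : MulAction H' Y := MulAction.compHom Y ρ
  haveI : IsIsometricSMul H' Y := ⟨fun h => isometry_smul Y (ρ h)⟩
  have hΨ : Ψ (Φ g) = π g := by simp [Ψ]
  have hpow : (Φ g) ^ N ∈ H' := by
    change Ψ ((Φ g) ^ N) ∈ H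
    rw [map_pow, hΨ]; exact hN
  have hm := model H' hH' hY j k hjk u hu (Φ g) h0 h1 hl N hpow y
  have hρ : ρ ⟨(Φ g) ^ N, hpow⟩ = ⟨π g ^ N, hN⟩ := by
    apply Subtype.ext
    change Ψ ((Φ g) ^ N) = π g ^ N
    rw [map_pow, hΨ]
  have hsm : ∀ m : ℕ, (⟨(Φ g) ^ N, hpow⟩ : H') ^ m • y = (⟨π g ^ N, hN⟩ : H) ^ m • y := by
    intro m
    change ρ ((⟨(Φ g) ^ N, hpow⟩ : H') ^ m) • y = _
    rw [map_pow, hρ]
  have hst : stl (⟨(Φ g) ^ N, hpow⟩ : H') y = stl (⟨π g ^ N, hN⟩ : H) y := by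
    unfold stl disp
    simp only [hsm]
  rw [loxodromicAt_iff, ← hst, hm] at hlox
  exact lt_irrefl _ hlox

end Pool.Agent.TVX
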