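import Pool.Agent.TVX.Z4

/-!
# [TVX-Z5] homomorphisms to groups detected by hyperbolic spaces

`finOrder`: let `x := φ ⟨π g ^ N, hN⟩` and suppose that `x` has infinite order. Take `G₀`, `Y k` from
`DetectedByHyperbolicSpaces`. `G₀` has finite index, so `x ^ m ∈ G₀` for some `m ≥ 1`, and `x ^ m`
has infinite order, so it is loxodromic at some `y : Y k`. Let `H ≤ P` be
`{p | ∃ hp : p ∈ Γ, φ ⟨p, hp⟩ ∈ G₀} = (G₀.comap φ).map Γ.subtype`, a finite index subgroup of `P`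
(`G₀.comap φ` has finite index in `Γ`, `Γ` in `P`). `H` acts on `Y k` through
`p ↦ ⟨φ ⟨p, _⟩, _⟩ : H →* G₀`, isometrically. Then `π g ^ (N * m) ∈ H` acts as `x ^ m`, so it is
`LoxodromicAt` for `H`: contradiction to `not_lox` (the same `c` works).

`finite_image`: `S := {γ : Γ | ∃ g, IsShearAt n i J (a⁻¹ g a) ∧ π g = γ}`. If `s, s' ∈ S` then
`s⁻¹ s' ∈ S` (for `g, g'`: `a⁻¹ (g⁻¹ g') a` is `x_i ↦ x_i u⁻¹ u'`; `g⁻¹` maps `x_i` to
`x_i u⁻¹` because it fixes `u`). By `finOrder` with `N = 1` every `φ s`, `s ∈ S`, has finite order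
(`IsShear n g`, as `i ∉ J`, `|J| + 4 ≤ n`). Let `G₁` be torsion free of finite index. If
`φ s, φ s'` (`s, s' ∈ S`) are in the same left coset of `G₁` then
`(φ s)⁻¹ φ s' = φ (s⁻¹ s') ∈ G₁` is torsion, hence `1`. So `φ '' S → G ⧸ G₁` is injective, and
`φ '' S` is finite (`Set.Finite.of_finite_image` or `Finite.of_injective`).
-/

namespace Pool.Agent.TVX

universe u v w

private theorem z5_index {P : Type u} [Group P] (Γ : Subgroup P) (hΓ : Γ.FiniteIndex)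
    {G : Type v} [Group G] (φ : Γ →* G) (G₀ : Subgroup G) (h0 : G₀.FiniteIndex) :
    ((G₀.comap φ).map Γ.subtype).FiniteIndex := by
  have h1 : (G₀.comap φ).index ≠ 0 := by
    have h0' := h0
    rw [Subgroup.index_comap]
    exact (Subgroup.instFiniteIndex_subgroupOf G₀ φ.range).index_ne_zero
  refine ⟨?_⟩
  rw [Subgroup.index_map_subtype]
  exact mul_ne_zero h1 hΓ.index_ne_zero

theorem finOrder (n : ℕ) {P : Type u} [Group P] (π : AutF n →* P) (Γ : Subgroup P)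
    (hΓ : Γ.FiniteIndex) (G : Type v) [Group G] (hG : DetectedByHyperbolicSpaces.{v, w} G)
    (φ : Γ →* G) (g : AutF n) (hg : IsShear n g) (N : ℕ) (hN : π g ^ N ∈ Γ) :
    IsOfFinOrder (φ ⟨π g ^ N, hN⟩) := by
  by_contra hx
  set x := φ ⟨π g ^ N, hN⟩ with hxdef
  obtain ⟨G₀, r, Y, iY, aY, hfi, hiso, hhyp, hlox⟩ := hG
  obtain ⟨m, hm0, -, hm⟩ := Subgroup.exists_pow_mem_of_index_ne_zero hfi.index_ne_zero x
  have hxm : ¬ IsOfFinOrder (⟨x ^ m, hm⟩ : G₀) := by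
    intro h
    apply hx
    have h2 : IsOfFinOrder (x ^ m) := by
      have := G₀.subtype.isOfFinOrder h
      simpa using this
    exact IsOfFinOrder.of_pow h2 (by omega)
  obtain ⟨k, y, hky⟩ := hlox _ hxm
  letI := iY k
  letI := aY k
  have hiso' := hiso k
  set H : Subgroup P := (G₀.comap φ).map Γ.subtype with hH
  have hHfi : H.FiniteIndex := z5_index Γ hΓ φ G₀ hfi
  have hmem : ∀ p : P, p ∈ H → ∃ hp : p ∈ Γ, φ ⟨p, hp⟩ ∈ G₀ := by
    rintro p ⟨q, hq, rfl⟩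
    exact ⟨q.2, hq⟩
  let ρ : H →* G₀ :=
    { toFun := fun h => ⟨φ ⟨h.1, (hmem h.1 h.2).choose⟩, (hmem h.1 h.2).choose_spec⟩
      map_one' := by
        apply Subtype.ext
        exact map_one φ
      map_mul' := fun a b => by
        apply Subtype.ext
        exact map_mul φ ⟨a.1, (hmem a.1 a.2).choose⟩ ⟨b.1, (hmem b.1 b.2).choose⟩ }
  letI : MulAction H (Y k) := MulAction.compHom (Y k) ρ
  haveI : IsIsometricSMul H (Y k) := ⟨fun h => isometry_smul (Y k) (ρ h)⟩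
  have hpow : π g ^ (N * m) ∈ H := by
    have h1 : (⟨π g ^ N, hN⟩ : Γ) ^ m ∈ G₀.comap φ := by
      rw [Subgroup.mem_comap, map_pow]
      exact hm
    refine ⟨(⟨π g ^ N, hN⟩ : Γ) ^ m, h1, ?_⟩
    rw [map_pow, pow_mul]
    rfl
  have hρ : ρ ⟨π g ^ (N * m), hpow⟩ = ⟨x ^ m, hm⟩ := by
    apply Subtype.ext
    have hmemN : π g ^ (N * m) ∈ Γ := by
      rw [pow_mul]; exact Γ.pow_mem hN m
    have hpp : (⟨π g ^ (N * m), hmemN⟩ : Γ) = (⟨π g ^ N, hN⟩ : Γ) ^ m := by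
      apply Subtype.ext
      exact pow_mul _ _ _
    change φ ⟨π g ^ (N * m), hmemN⟩ = x ^ m
    rw [hpp, map_pow, hxdef]
  refine not_lox n π H hHfi (hhyp k) g hg (N * m) hpow y ?_
  obtain ⟨c, hc, hc'⟩ := hky
  refine ⟨c, hc, fun j => ?_⟩
  have h2 : (⟨π g ^ (N * m), hpow⟩ : H) ^ j • y = (⟨x ^ m, hm⟩ : G₀) ^ j • y := by
    change ρ ((⟨π g ^ (N * m), hpow⟩ : H) ^ j) • y = _
    rw [map_pow, hρ]
  rw [h2]
  exact hc' j

private theorem z5_fix {n : ℕ} {i : Fin n} {J : Finset (Fin n)} (hi : i ∉ J) {g : AutF n}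
    (hg : ∀ l : Fin n, l ≠ i → g (FreeGroup.of l) = FreeGroup.of l) {u : FreeGroup (Fin n)}
    (hu : u ∈ Subgroup.closure (FreeGroup.of '' (J : Set (Fin n)))) : g u = u := by
  induction hu using Subgroup.closure_induction with
  | mem x hx =>
    obtain ⟨l, hl, rfl⟩ := hx
    apply hg
    rintro rfl
    exact hi (by simpa using hl)
  | one => simp
  | mul x y _ _ hx hy => rw [map_mul, hx, hy]
  | inv x _ hx => rw [map_inv, hx]

private theorem z5_inv_mul {n : ℕ} {i : Fin n} {J : Finset (Fin n)} (hi : i ∉ J) {g g' : AutF n}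
    (hg : IsShearAt n i J g) (hg' : IsShearAt n i J g') : IsShearAt n i J (g⁻¹ * g') := by
  obtain ⟨u, hu, h1, h2⟩ := hg
  obtain ⟨u', hu', h1', h2'⟩ := hg'
  have hinvl : ∀ l : Fin n, l ≠ i → g⁻¹ (FreeGroup.of l) = FreeGroup.of l := by
    intro l hl
    conv_lhs => rw [← h2 l hl]
    exact MulAut.inv_apply_self _ g _
  have hinvi : g⁻¹ (FreeGroup.of i) = FreeGroup.of i * u⁻¹ := by
    have h3 : g (FreeGroup.of i * u⁻¹) = FreeGroup.of i := by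
      rw [map_mul, h1, map_inv, z5_fix hi h2 hu]; group
    conv_lhs => rw [← h3]
    exact MulAut.inv_apply_self _ g _
  refine ⟨u⁻¹ * u', Subgroup.mul_mem _ (Subgroup.inv_mem _ hu) hu', ?_, ?_⟩
  · rw [MulAut.mul_apply, h1', map_mul, hinvi, z5_fix hi hinvl hu', mul_assoc]
  · intro l hl
    rw [MulAut.mul_apply, h2' l hl, hinvl l hl]

theorem finite_image (n : ℕ) {P : Type u} [Group P] (π : AutF n →* P) (Γ : Subgroup P)
    (hΓ : Γ.FiniteIndex) (G : Type v) [Group G] (hG : DetectedByHyperbolicSpaces.{v, w} G)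
    (hvt : VirtuallyTorsionFree G) (φ : Γ →* G) (a : AutF n) (i : Fin n) (J : Finset (Fin n))
    (hi : i ∉ J) (hJ : J.card + 4 ≤ n) :
    (φ '' {γ : Γ | ∃ g : AutF n, IsShearAt n i J (a⁻¹ * g * a) ∧ π g = γ}).Finite := by
  obtain ⟨G₁, hfi, htf⟩ := hvt
  set S : Set Γ := {γ : Γ | ∃ g : AutF n, IsShearAt n i J (a⁻¹ * g * a) ∧ π g = γ} with hS
  have hord : ∀ γ ∈ S, IsOfFinOrder (φ γ) := by
    rintro γ ⟨g, hg, hγ⟩
    have hN : π g ^ 1 ∈ Γ := by rw [pow_one, hγ]; exact γ.2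
    have := finOrder n π Γ hΓ G hG φ g ⟨a, i, J, hi, hJ, hg⟩ 1 hN
    have h2 : (⟨π g ^ 1, hN⟩ : Γ) = γ := by
      apply Subtype.ext
      change π g ^ 1 = γ
      rw [pow_one, hγ]
    rw [h2] at this
    exact this
  have hmul : ∀ γ ∈ S, ∀ γ' ∈ S, γ⁻¹ * γ' ∈ S := by
    rintro γ ⟨g, hg, hγ⟩ γ' ⟨g', hg', hγ'⟩
    refine ⟨g⁻¹ * g', ?_, ?_⟩
    · have h3 : a⁻¹ * (g⁻¹ * g') * a = (a⁻¹ * g * a)⁻¹ * (a⁻¹ * g' * a) := by group
      rw [h3]
      exact z5_inv_mul hi hg hg'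
    · rw [map_mul, map_inv, hγ, hγ']; rfl
  have hfin : Finite (G ⧸ G₁) := Subgroup.finite_quotient_of_finiteIndex
  apply Set.Finite.of_finite_image (f := fun x : G => (x : G ⧸ G₁)) (Set.toFinite _)
  rintro _ ⟨γ, hγ, rfl⟩ _ ⟨γ', hγ', rfl⟩ heq
  have h4 : (φ γ)⁻¹ * φ γ' ∈ G₁ := QuotientGroup.eq.1 heq
  have h5 : (φ γ)⁻¹ * φ γ' = φ (γ⁻¹ * γ') := by rw [map_mul, map_inv]
  have h6 := htf _ h4 (by rw [h5]; exact hord _ (hmul γ hγ γ' hγ'))
  exact (inv_mul_eq_one.1 h6)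

end Pool.Agent.TVX
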